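import Pool.Agent.Q41.GT.All
import Pool.Agent.Q224.EC.Lip
import Pool.Agent.Q95.EC.Lgc
import Pool.Agent.Q65.EC.Cvy
import Pool.Agent.Q224.EC.Inv
import Pool.Agent.Q177.EC.CNC
import Pool.Agent.Q65.EC.Wry
import Pool.Agent.Q65.EC.OrdL
import Pool.Agent.Q149.EC.Val
import Pool.Agent.Q149.EC.Intg
import Pool.Agent.Q184.EC.AnaStm
import Pool.Agent.Q224.EC.Plc
import Pool.Agent.Q224.EC.Crp
import Pool.Agent.Q38.EC.Mer
import Pool.Agent.Q149.EC.Spec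
import Pool.Agent.Q53.EC.Var
import Pool.Agent.Q53.EC.Pic
import Pool.Agent.Q53.EC.Str
import Pool.Agent.Q162.EC.Vdn
import Pool.Agent.Q162.EC.Vaf
import Pool.Agent.Q162.EC.Brl
import Pool.Agent.Q162.EC.Brd
import Pool.Agent.Q176.GT.R1

/-!
# The statements of the project EC, without hypotheses
-/

set_option autoImplicit false

namespace Pool.Agent.Q103.EC

open Pool.Agent.Q41.SU
open Pool.Agent.Q41.GT

theorem b_lgc : S_lgc := Pool.Agent.Q95.EC.lgc Pool.Agent.Q95.GT.t_bgc.{0} Pool.Agent.Q166.GT.Dgt.t_dgt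

theorem b_cvy : S_cvy := Pool.Agent.Q65.EC.cvy Pool.Agent.Q65.SU.cov.{0}

theorem b_wry : S_wry :=
  Pool.Agent.Q65.EC.wry Pool.Agent.Q224.EC.t_lip b_lgc b_cvy Pool.Agent.Q224.EC.t_inv
    Pool.Agent.Q177.EC.t_cnc Pool.Agent.Q65.SU.lsq

theorem b_ordL : S_ordL :=
  Pool.Agent.Q65.EC.ordL a_locv a_nmc Pool.Agent.Q223.GT.t_wrf a_wrx b_wry
    Pool.Agent.Q225.GT.gfn'

theorem b_intg : S_intg := Pool.Agent.Q149.EC.t_intg b_ordL Pool.Agent.Q149.EC.t_val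

theorem b_crp : S_crp := Pool.Agent.Q224.EC.t_crp Pool.Agent.Q144.SU.crc.{0}

theorem b_mer : S_mer :=
  Pool.Agent.Q38.EC.t_mer b_intg Pool.Agent.Q184.EC.t_ana Pool.Agent.Q224.EC.t_plc b_crp a_ndr
    Pool.Agent.Q24.SU.t_red.{0} Pool.Agent.Q144.SU.crc.{0} Pool.Agent.Q166.GT.Alp.t_alp
    Pool.Agent.Q225.GT.gfn'

theorem b_var : S_var :=
  Pool.Agent.Q53.EC.t_var Pool.Agent.Q149.EC.t_spr Pool.Agent.Q149.EC.t_spm
    Pool.Agent.Q149.EC.t_spa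

/-- **Punctured discs** -/
theorem b_pic : S_pic := Pool.Agent.Q53.EC.t_pic b_var b_mer

/-- **Subvarieties** -/
theorem b_str : S_str := Pool.Agent.Q53.EC.t_str b_var a_gt

theorem b_vdn : S_vdn := Pool.Agent.Q162.EC.vdn Pool.Agent.Q176.GT.R1.hom

theorem b_vaf : S_vaf := Pool.Agent.Q162.EC.vaf Pool.Agent.Q225.GT.aff

/-- **Borel hyperbolicity of the moduli spaces** -/
theorem b_brl : S_brl := Pool.Agent.Q162.EC.brl b_mer b_vdn b_vaf

/-- **Brody hyperbolicity of the moduli spaces** -/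
theorem b_brd : S_brd := Pool.Agent.Q162.EC.brd b_brl b_vdn a_gonl

end Pool.Agent.Q103.EC
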