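import Pool.Agent.Q41.GT.Stm2

/-!
# Hyperbolicity of dynamical moduli spaces: definitions

Conventions as in `Pool.Agent.Q41.GT.Defs`: `p / q` is a rational map of degree `d` over a field `K`
over `k`, `P` a finite stable set of points of `K`. New: instead of the values `D z` of a derivation
we allow arbitrary values `y z`, `z` in `P`. The elements of `lgs P y` are, for `y = D`, the
logarithmic derivatives `D c / c` of the cross ratios `c` of the points of `P`.
-/

namespace Pool.Agent.Q103.EC

open Finset Polynomial FF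
open Pool.Agent.W602.GT
open Pool.Agent.W603.LV (Ge)
open Pool.Agent.Q41.SU
open Pool.Agent.Q41.GT

/-- the slope of the values `y` -/
def slp {J K : Type} [Field K] (x y : J → K) (i j : J) : K := (y i - y j) / (x i - x j)

/-- the logarithmic derivative of the cross ratio `(x i - x j) (x l - x m) / ((x i - x m) (x l - x j))`
if `y` are the derivatives of `x` -/
def lgd {J K : Type} [Field K] (x y : J → K) (i j l m : J) : K :=
  slp x y i j + slp x y l m - slp x y i m - slp x y l j

/-- the logarithmic derivatives of the cross ratios are regular at `v` -/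
def Lgx {k K : Type} [Field k] [Field K] [Algebra k K] {J : Type} (v : Place k K) (x y : J → K) :
    Prop :=
  ∀ i j l m, i ≠ j → l ≠ m → i ≠ m → l ≠ j → v.Reg (lgd x y i j l m)

/-- the logarithmic derivatives of the cross ratios of the points of `P`, where `y z` stands for the
derivative of `z` -/
def lgs {K : Type} [Field K] (P : Finset K) (y : K → K) : Set K :=
  {s | ∃ i ∈ P, ∃ j ∈ P, ∃ l ∈ P, ∃ m ∈ P, i ≠ j ∧ l ≠ m ∧ i ≠ m ∧ l ≠ j ∧
    s = lgd (fun z : K => z) y i j l m}

/-- the product of the `gfn` over the pairs of different points of `P` -/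
noncomputable def GG {K : Type} [Field K] (E₀ d : ℕ) (α : K → K) (p q : K[X]) (P : Finset K) : K := by
  classical
  exact ∏ z ∈ P, ∏ z' ∈ P.erase z, gfn E₀ d α p q z z'

/-- `GG` and its products with the cross ratios -/
def hfs {K : Type} [Field K] (E₀ d : ℕ) (α : K → K) (p q : K[X]) (P : Finset K) : Set K :=
  {h | h = GG E₀ d α p q P ∨ ∃ c ∈ crs P, h = c * GG E₀ d α p q P}

/-- the form `Phi` (`Pool.Agent.Q41.GT.Phi`) of the rows `x` with arbitrary values `y` instead of the
values of a derivation -/
noncomputable def PhiY {K : Type} [Field K] {a b : ℕ}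
    (φ : II a b → ℕ × ℕ) (E₀ d : ℕ) (α : K → K) (p q : K[X]) (x : II a b → K) (y : K → K) : K :=
  wro φ x (fun l => y (x l)) ^ (2 * ((a + 1) * (b + 1) - 1) * b * (E₀ * (d * (d - 1)))) *
      pprod (gfn E₀ d α p q) x ^ (4 * ((a + 1) * (b + 1) - 1)) /
    pprod (fun z z' => z - z') x ^ ((a + b) * b * (E₀ * (d * (d - 1))))

/-- the property of the columns proved in (G6), `Pool.Agent.Q41.GT.S_wrf` -/
def Wrf {a b : ℕ} (φ : II a b → ℕ × ℕ) (κ : ℤ) : Prop :=
  ∀ (A : Type) [CommRing A] (x y : II a b → A) (τ : II a b → PowerSeries A),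
    (∀ l, PowerSeries.constantCoeff (τ l) = x l) → (∀ l, PowerSeries.coeff 1 (τ l) = y l) →
    ∃ R : PowerSeries A, (κ : PowerSeries A) * bd a b τ (fun l => PowerSeries.C (x l)) =
      PowerSeries.X ^ cst φ * (PowerSeries.C (wro φ x y) + PowerSeries.X * R)

end Pool.Agent.Q103.EC
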