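import Pool.Agent.Q103.EC.Mxv
import Pool.Agent.Q144.SU.Crc
import Pool.Agent.Q285.GT.Qsub

/-!
# Maps over a function field that are not isotrivial

A map over `L` with many preperiodic points in `P^1(L)` which is not isotrivial is conjugate to a map
over a finitely generated subfield `L₁` of positive transcendence degree, which is algebraic over the
field of the cross ratios of a stable set.
-/

set_option autoImplicit false

namespace Pool.Agent.Q103.EC

open Finset Polynomial
open Pool.Agent.Q41.SU
open Pool.Agent.Q41.GT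
open Pool.Agent.Q144.SU (hv const_point)
open Pool.Agent.W277.UH (ratP1 ratP1_some ratP1_some0 ratP1_none ratP1_none0)
open Pool.Agent.Q68.GT (cp three cp_conj cp_coprime cp_max mob_inv)

lemma hv_one {E : Type} [Field E] (H : ℕ) (g : E[X]) (hg : g.natDegree ≤ H) (t : E) :
    hv H g t 1 = g.eval t := by
  unfold hv
  rw [eval_eq_sum_range' (Nat.lt_succ_of_le hg)]
  refine sum_congr rfl fun i _ => ?_
  rw [one_pow, mul_one]

lemma hv_zero {E : Type} [Field E] (H : ℕ) (g : E[X]) : hv H g 1 0 = g.coeff H := by
  unfold hv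
  rw [sum_range_succ, Nat.sub_self, pow_zero, one_pow, mul_one, mul_one, sum_eq_zero, zero_add]
  intro i hi
  rw [zero_pow (by have := mem_range.1 hi; omega), mul_zero]

/-- homogeneous coordinates of a point -/
def cA {K : Type} [Field K] : Option K → K
  | some t => t
  | none => 1

/-- homogeneous coordinates of a point -/
def cB {K : Type} [Field K] : Option K → K
  | some _ => 1
  | none => 0

/-- preperiodic points are algebraic over the field of the coefficients -/
theorem alg_of_prePer {F K : Type} [Field F] [Field K] [Algebra F K] {d : ℕ} (hd : 2 ≤ d)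
    {u w : F[X]} (huw : IsCoprime u w) (hmax : max u.natDegree w.natDegree = d) {t : K}
    (ht : some t ∈ prePer d (u.map (algebraMap F K)) (w.map (algebraMap F K))) :
    IsAlgebraic F t := by
  classical
  set A := AlgebraicClosure K with hA
  set k' := algebraicClosure F A with hk'
  have : IsAlgClosed k' := IsAlgClosure.isAlgClosed F
  have hdu : u.natDegree ≤ d := hmax ▸ le_max_left _ _
  have hdw : w.natDegree ≤ d := hmax ▸ le_max_right _ _
  set φ := algebraMap K A with hφ
  have hw0 : w ≠ 0 := by
    rintro rfl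
    rw [isCoprime_zero_right] at huw
    have := natDegree_eq_zero_of_isUnit huw
    rw [this, natDegree_zero] at hmax
    simp at hmax
    omega
  have hmap : ∀ g : F[X], (g.map (algebraMap F k')).map (algebraMap k' A) =
      (g.map (algebraMap F K)).map φ := by
    intro g
    rw [Polynomial.map_map, Polynomial.map_map, ← IsScalarTower.algebraMap_eq F k' A, hφ,
      ← IsScalarTower.algebraMap_eq F K A]
  set f : Option K → Option K := ratP1 (u.map (algebraMap F K)) (w.map (algebraMap F K)) d with hf
  have hrec1 : ∀ z : Option K,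
      φ (cA (f z)) * hv d ((w.map (algebraMap F K)).map φ) (φ (cA z)) (φ (cB z)) =
      φ (cB (f z)) * hv d ((u.map (algebraMap F K)).map φ) (φ (cA z)) (φ (cB z)) := by
    have hdeg : ∀ g : F[X], g.natDegree ≤ d → ((g.map (algebraMap F K)).map φ).natDegree ≤ d :=
      fun g hg => natDegree_map_le.trans (natDegree_map_le.trans hg)
    intro z
    cases z with
    | some s =>
      show φ (cA (f (some s))) * hv d ((w.map (algebraMap F K)).map φ) (φ s) (φ 1) =
        φ (cB (f (some s))) * hv d ((u.map (algebraMap F K)).map φ) (φ s) (φ 1)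
      rw [map_one, hv_one _ _ (hdeg w hdw), hv_one _ _ (hdeg u hdu), eval_map_apply,
        eval_map_apply]
      by_cases h0 : (w.map (algebraMap F K)).eval s = 0
      · have h1 : f (some s) = none := by rw [hf]; exact ratP1_some0 _ _ _ _ h0
        rw [h1, h0]
        show φ 1 * φ 0 = φ 0 * _
        rw [map_zero, mul_zero, zero_mul]
      · have h1 : f (some s) = some ((u.map (algebraMap F K)).eval s /
            (w.map (algebraMap F K)).eval s) := by rw [hf]; exact ratP1_some _ _ _ _ h0
        rw [h1]
        show φ (_ / _) * φ _ = φ 1 * φ _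
        rw [← map_mul, div_mul_cancel₀ _ h0, map_one, one_mul]
    | none =>
      show φ (cA (f none)) * hv d ((w.map (algebraMap F K)).map φ) (φ 1) (φ 0) =
        φ (cB (f none)) * hv d ((u.map (algebraMap F K)).map φ) (φ 1) (φ 0)
      rw [map_one, map_zero, hv_zero, hv_zero, coeff_map, coeff_map (p := u.map (algebraMap F K))]
      by_cases h0 : (w.map (algebraMap F K)).coeff d = 0
      · have h1 : f none = none := by rw [hf]; exact ratP1_none0 _ _ _ h0
        rw [h1, h0]
        show φ 1 * φ 0 = φ 0 * _
        rw [map_zero, mul_zero, zero_mul]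
      · have h1 : f none = some ((u.map (algebraMap F K)).coeff d /
            (w.map (algebraMap F K)).coeff d) := by rw [hf]; exact ratP1_none _ _ _ h0
        rw [h1]
        show φ (_ / _) * φ _ = φ 1 * φ _
        rw [← map_mul, div_mul_cancel₀ _ h0, map_one, one_mul]
  obtain ⟨i, j, hij, hzz⟩ : ∃ i j, i < j ∧ f^[i] (some t) = f^[j] (some t) := by
    by_contra hcon
    push Not at hcon
    have hinj : Function.Injective fun n : ℕ => f^[n] (some t) := by
      intro i j hij
      rcases lt_trichotomy i j with h | h | h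
      · exact absurd hij (hcon i j h)
      · exact h
      · exact absurd hij.symm (hcon j i h)
    exact Set.infinite_range_of_injective hinj ht
  obtain ⟨s, hs⟩ := const_point (k := k') (E := A) d hd (u.map (algebraMap F k'))
    (w.map (algebraMap F k')) (huw.map (mapRingHom (algebraMap F k')))
    (by rw [natDegree_map, natDegree_map, hmax])
    ((Polynomial.map_ne_zero_iff (algebraMap F k').injective).2 hw0)
    (fun n => φ (cA (f^[n] (some t)))) (fun n => φ (cB (f^[n] (some t))))
    (fun n => by
      cases h : f^[n] (some t) with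
      | some s => right; show φ 1 ≠ 0; rw [map_one]; exact one_ne_zero
      | none => left; show φ 1 ≠ 0; rw [map_one]; exact one_ne_zero)
    (fun n => by
      rw [hmap, hmap]
      have := hrec1 (f^[n] (some t))
      rw [← Function.iterate_succ_apply' f n] at this
      exact this)
    ⟨i, j, hij, by simp only [hzz], by simp only [hzz]⟩
    (by show φ 1 ≠ 0; rw [map_one]; exact one_ne_zero)
  have hs' : φ t = algebraMap k' A s := by
    have h1 : φ t = algebraMap k' A s * φ 1 := hs
    rw [map_one, mul_one] at h1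
    exact h1
  have h2 : IsAlgebraic F (φ t) := by
    rw [hs']
    exact mem_algebraicClosure_iff.1 s.2
  exact (isAlgebraic_algebraMap_iff φ.injective).1 h2

/-- The map `p / q` is isotrivial: it is conjugate, over an algebraic closure of `K`, to a map with
coefficients algebraic over `k`. -/
def Isotrivial (k : Type) {K : Type} [Field k] [Field K] [Algebra k K] (d : ℕ) (p q : K[X]) : Prop :=
  ∃ (p' q' : (AlgebraicClosure K)[X]) (a b c e : AlgebraicClosure K),
    a * e - b * c ≠ 0 ∧ IsCoprime p' q' ∧ max p'.natDegree q'.natDegree = d ∧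
    (∀ i, IsAlgebraic k (p'.coeff i) ∧ IsAlgebraic k (q'.coeff i)) ∧
    ∀ y, ratP1 (C a * X + C b) (C c * X + C e) 1
        (ratP1 (p.map (algebraMap K (AlgebraicClosure K)))
          (q.map (algebraMap K (AlgebraicClosure K))) d y) =
      ratP1 p' q' d (ratP1 (C a * X + C b) (C c * X + C e) 1 y)

/-- normal form -/
lemma exists_norm {K : Type} [Field K] {d B : ℕ} (hd : 2 ≤ d) (hB : 3 ≤ B) {p q : K[X]}
    (hco : IsCoprime p q) (hmax : max p.natDegree q.natDegree = d)
    (hmany : (B : ℕ∞) ≤ (prePer d p q).encard) :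
    ∃ (a b c e : K) (p1 q1 : K[X]) (S : Finset (Option K)), a * e - b * c ≠ 0 ∧
      IsCoprime p1 q1 ∧ max p1.natDegree q1.natDegree = d ∧
      (∃ j, p1.coeff j = 1 ∨ q1.coeff j = 1) ∧ (∀ z ∈ S, ratP1 p1 q1 d z ∈ S) ∧ none ∈ S ∧
      some 0 ∈ S ∧ some 1 ∈ S ∧ B ≤ S.card ∧
      ∀ (E : Type) [Field E] (φ : K →+* E) (y : Option E),
        ratP1 (C (φ a) * X + C (φ b)) (C (φ c) * X + C (φ e)) 1
          (ratP1 (p.map φ) (q.map φ) d y) =
        ratP1 (p1.map φ) (q1.map φ) d
          (ratP1 (C (φ a) * X + C (φ b)) (C (φ c) * X + C (φ e)) 1 y) := by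
  classical
  obtain ⟨T, hT, hTc⟩ := Set.exists_subset_encard_eq hmany
  have hTfin : T.Finite := Set.finite_of_encard_eq_coe hTc
  set f : Option K → Option K := ratP1 p q d with hf
  let S : Set (Option K) := ⋃ z ∈ T, Set.range fun m : ℕ => f^[m] z
  have hSfin : S.Finite := hTfin.biUnion fun z hz => hT hz
  have hTS : T ⊆ S := by
    intro z hz
    exact Set.mem_biUnion hz ⟨0, rfl⟩
  have hSf : ∀ z ∈ S, f z ∈ S := by
    intro z hz
    simp only [S, Set.mem_iUnion, Set.mem_range] at hz ⊢
    obtain ⟨y, hy, m, rfl⟩ := hz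
    exact ⟨y, hy, m + 1, Function.iterate_succ_apply' f m y⟩
  have hcard : B ≤ hSfin.toFinset.card := by
    have h3 : T.encard ≤ S.encard := Set.encard_le_encard hTS
    rw [hTc, hSfin.encard_eq_coe_toFinset_card] at h3
    exact_mod_cast h3
  obtain ⟨x, hx, y, hy, z, hz, hxy, hxz, hyz⟩ := Finset.two_lt_card.1
    (show 2 < hSfin.toFinset.card by omega)
  obtain ⟨a, b, c, e, hdet, g0, g1, g2⟩ := three hxy hxz hyz
  have hd1 : 1 ≤ d := by omega
  set p1 := cp d p q a b c e a b with hp1
  set q1 := cp d p q a b c e c e with hq1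
  set M : Option K → Option K := ratP1 (C a * X + C b) (C c * X + C e) 1 with hM
  have hMinj : Function.Injective M := Function.LeftInverse.injective (mob_inv hdet)
  have hconj := cp_conj hd1 hco hmax hdet
  have hco1 : IsCoprime p1 q1 := cp_coprime hd1 hco hmax hdet
  have hmax1 : max p1.natDegree q1.natDegree = d := cp_max hd1 hco hmax hdet
  have hcardM : (hSfin.toFinset.image M).card = hSfin.toFinset.card :=
    Finset.card_image_of_injective _ hMinj
  obtain ⟨g, hg, j, hgj⟩ : ∃ g : K[X], (g = p1 ∨ g = q1) ∧ ∃ j, g.coeff j ≠ 0 := by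
    rcases max_choice p1.natDegree q1.natDegree with h7 | h7
    · rw [hmax1] at h7
      refine ⟨p1, Or.inl rfl, d, ?_⟩
      rw [h7, coeff_natDegree]
      intro h0
      rw [leadingCoeff_eq_zero.1 h0, natDegree_zero] at h7
      omega
    · rw [hmax1] at h7
      refine ⟨q1, Or.inr rfl, d, ?_⟩
      rw [h7, coeff_natDegree]
      intro h0
      rw [leadingCoeff_eq_zero.1 h0, natDegree_zero] at h7
      omega
  set t : K := (g.coeff j)⁻¹ with ht
  have ht0 : t ≠ 0 := inv_ne_zero hgj
  have hunit : IsUnit (C t) := by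
    rw [Polynomial.isUnit_C]
    exact ht0.isUnit
  refine ⟨a, b, c, e, C t * p1, C t * q1, hSfin.toFinset.image M, hdet, ?_, ?_, ?_, ?_, ?_, ?_, ?_,
    by omega, ?_⟩
  · rw [isCoprime_mul_unit_left hunit]
    exact hco1
  · rw [natDegree_C_mul ht0, natDegree_C_mul ht0, hmax1]
  · refine ⟨j, ?_⟩
    rcases hg with rfl | rfl
    · left
      rw [coeff_C_mul, ht, inv_mul_cancel₀ hgj]
    · right
      rw [coeff_C_mul, ht, inv_mul_cancel₀ hgj]
  · intro z hz
    obtain ⟨w, hw, rfl⟩ := Finset.mem_image.1 hz
    rw [ratP1_mulC d _ _ ht0, ← hconj w]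
    refine Finset.mem_image_of_mem _ ?_
    rw [Set.Finite.mem_toFinset] at hw ⊢
    exact hSf w hw
  · rw [← g0]; exact Finset.mem_image_of_mem _ hx
  · rw [← g1]; exact Finset.mem_image_of_mem _ hy
  · rw [← g2]; exact Finset.mem_image_of_mem _ hz
  · intro E _ φ y
    have hφt : φ t ≠ 0 := (map_ne_zero φ).2 ht0
    have hφdet : φ a * φ e - φ b * φ c ≠ 0 := by
      rw [← map_mul, ← map_mul, ← map_sub]
      exact (map_ne_zero φ).2 hdet
    rw [Polynomial.map_mul, Polynomial.map_mul, map_C, ratP1_mulC d _ _ hφt, hp1, hq1, cp_map,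
      cp_map]
    have h1 : max (p.map φ).natDegree (q.map φ).natDegree = d := by
      rw [natDegree_map, natDegree_map, hmax]
    exact cp_conj hd1 (hco.map (mapRingHom φ)) h1 hφdet y

lemma ratP1_map {K E : Type} [Field K] [Field E] (φ : K →+* E) (d : ℕ) (p q : K[X])
    (z : Option K) : Option.map φ (ratP1 p q d z) = ratP1 (p.map φ) (q.map φ) d (Option.map φ z) := by
  cases z with
  | none =>
    by_cases h : q.coeff d = 0
    · rw [ratP1_none0 _ _ _ h, Option.map_none, ratP1_none0 _ _ _ (by rw [coeff_map, h, map_zero])]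
    · rw [ratP1_none _ _ _ h, Option.map_none, Option.map_some,
        ratP1_none _ _ _ (by rw [coeff_map]; exact (map_ne_zero φ).2 h), coeff_map, coeff_map,
        map_div₀]
  | some x =>
    by_cases h : q.eval x = 0
    · rw [ratP1_some0 _ _ _ _ h, Option.map_none, Option.map_some,
        ratP1_some0 _ _ _ _ (by rw [eval_map_apply, h, map_zero])]
    · rw [ratP1_some _ _ _ _ h, Option.map_some, Option.map_some,
        ratP1_some _ _ _ _ (by rw [eval_map_apply]; exact (map_ne_zero φ).2 h), eval_map_apply,
        eval_map_apply, map_div₀]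

/-- the generators generate -/
lemma adjoin_top {k L : Type} [Field k] [Field L] [Algebra k L] (T : Set L) :
    IntermediateField.adjoin k (Set.range fun y : T =>
      (⟨y, IntermediateField.subset_adjoin k T y.2⟩ : IntermediateField.adjoin k T)) = ⊤ := by
  apply IntermediateField.lift_injective
  rw [IntermediateField.lift_adjoin, IntermediateField.lift_top]
  congr 1
  ext z
  constructor
  · rintro ⟨_, ⟨y, rfl⟩, rfl⟩
    exact y.2
  · intro hz
    exact ⟨_, ⟨⟨z, hz⟩, rfl⟩, rfl⟩

/-- **Descent to a finitely generated field.** -/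
theorem exists_sub {k L : Type} [Field k] [CharZero k] [Field L] [Algebra k L] {d B : ℕ}
    (hd : 2 ≤ d) (hB : 3 * d + 7 ≤ B) {p q : L[X]} (hco : IsCoprime p q)
    (hmax : max p.natDegree q.natDegree = d) (hmany : (B : ℕ∞) ≤ (prePer d p q).encard) :
    ∃ (T : Finset L) (p' q' : (IntermediateField.adjoin k (T : Set L))[X])
      (P' : Finset (IntermediateField.adjoin k (T : Set L))), p'.natDegree ≤ d ∧
      q'.natDegree = d ∧ IsCoprime p' q' ∧ Stab p' q' P' ∧ B ≤ P'.card ∧
      Algebra.IsAlgebraic (IntermediateField.adjoin k (crs P'))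
        (IntermediateField.adjoin k (T : Set L)) ∧
      (Algebra.IsAlgebraic k (IntermediateField.adjoin k (T : Set L)) → Isotrivial k d p q) := by
  classical
  obtain ⟨a, b, c, e, p1, q1, S, hdet, hco1, hmax1, hone, hS, s0, s1, s2, hcard, hconj⟩ :=
    exists_norm hd (by omega) hco hmax hmany
  set T : Finset L := (range (d + 1)).image p1.coeff ∪ (range (d + 1)).image q1.coeff ∪
    S.image (fun z => z.getD 0) with hT
  set L₁ := IntermediateField.adjoin k (T : Set L) with hL₁
  set φ := algebraMap L₁ L with hφ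
  have hφinj : Function.Injective φ := φ.injective
  have hTL : ∀ t ∈ T, ∃ s : L₁, φ s = t := fun t ht =>
    ⟨⟨t, IntermediateField.subset_adjoin k _ ht⟩, rfl⟩
  have hd1 : p1.natDegree ≤ d := hmax1 ▸ le_max_left _ _
  have hd2 : q1.natDegree ≤ d := hmax1 ▸ le_max_right _ _
  have hcoeff : ∀ g : L[X], g.natDegree ≤ d → (range (d + 1)).image g.coeff ⊆ T →
      ∃ g' : L₁[X], g'.map φ = g := by
    intro g hg hgT
    have : g ∈ Polynomial.lifts φ := by
      rw [Polynomial.lifts_iff_coeff_lifts]
      intro i
      by_cases hi : i ≤ d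
      · obtain ⟨s, hs⟩ := hTL (g.coeff i) (hgT (mem_image_of_mem _ (mem_range.2 (by omega))))
        exact ⟨s, hs⟩
      · rw [coeff_eq_zero_of_natDegree_lt (by omega)]
        exact ⟨0, map_zero _⟩
    obtain ⟨g', hg'⟩ := this
    exact ⟨g', hg'⟩
  obtain ⟨p3, hp3⟩ := hcoeff p1 hd1 (fun y hy => by
    rw [hT]; exact mem_union_left _ (mem_union_left _ hy))
  obtain ⟨q3, hq3⟩ := hcoeff q1 hd2 (fun y hy => by
    rw [hT]; exact mem_union_left _ (mem_union_right _ hy))
  have hco3 : IsCoprime p3 q3 := by
    rw [← Polynomial.isCoprime_map φ, hp3, hq3]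
    exact hco1
  have hmax3 : max p3.natDegree q3.natDegree = d := by
    rw [← natDegree_map φ, ← natDegree_map (p := q3) φ, hp3, hq3, hmax1]
  set ψ : Option L₁ → Option L := Option.map φ with hψ
  have hψinj : Function.Injective ψ := Option.map_injective hφinj
  set S3 : Finset (Option L₁) := S.preimage ψ hψinj.injOn with hS3
  have hmemS3 : ∀ z, z ∈ S3 ↔ ψ z ∈ S := fun z => by rw [hS3, Finset.mem_preimage]
  have himg : S3.image ψ = S := by
    ext z
    rw [Finset.mem_image]
    constructor
    · rintro ⟨w, hw, rfl⟩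
      exact (hmemS3 w).1 hw
    · intro hz
      cases z with
      | none => exact ⟨none, (hmemS3 _).2 hz, rfl⟩
      | some t =>
        obtain ⟨s, hs⟩ := hTL t (by
          rw [hT]
          exact mem_union_right _ (mem_image.2 ⟨some t, hz, rfl⟩))
        refine ⟨some s, (hmemS3 _).2 ?_, ?_⟩
        · show some (φ s) ∈ S
          rw [hs]
          exact hz
        · show some (φ s) = some t
          rw [hs]
  have hcard3 : S3.card = S.card := by
    rw [← himg, Finset.card_image_of_injective _ hψinj]
  have hst3 : ∀ z ∈ S3, ratP1 p3 q3 d z ∈ S3 := by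
    intro z hz
    rw [hmemS3] at hz ⊢
    show Option.map φ _ ∈ S
    rw [ratP1_map, hp3, hq3]
    exact hS _ hz
  -- `L₁` is algebraic over the field generated by the coefficients
  have halg : Algebra.IsAlgebraic (IntermediateField.adjoin k (rats p3 q3)) L₁ := by
    set F := IntermediateField.adjoin k (rats p3 q3) with hF
    have hone3 : ∃ g : L₁[X], (g = p3 ∨ g = q3) ∧ ∃ j, g.coeff j = 1 := by
      obtain ⟨j, hj⟩ := hone
      rcases hj with hj | hj
      · refine ⟨p3, Or.inl rfl, j, hφinj ?_⟩
        rw [← coeff_map, hp3, hj, map_one]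
      · refine ⟨q3, Or.inr rfl, j, hφinj ?_⟩
        rw [← coeff_map, hq3, hj, map_one]
    obtain ⟨g, hg, j, hgj⟩ := hone3
    have hlift : ∀ g' : L₁[X], (g' = p3 ∨ g' = q3) → ∃ g'' : F[X], g''.map (algebraMap F L₁) = g' := by
      intro g' hg'
      have : g' ∈ Polynomial.lifts (algebraMap F L₁) := by
        rw [Polynomial.lifts_iff_coeff_lifts]
        intro i
        refine ⟨⟨g'.coeff i, IntermediateField.subset_adjoin _ _ ⟨g', g, hg', hg, i, j, ?_⟩⟩, rfl⟩
        rw [hgj, div_one]
      obtain ⟨g'', hg''⟩ := this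
      exact ⟨g'', hg''⟩
    obtain ⟨p4, hp4⟩ := hlift p3 (Or.inl rfl)
    obtain ⟨q4, hq4⟩ := hlift q3 (Or.inr rfl)
    have hco4 : IsCoprime p4 q4 := by
      rw [← Polynomial.isCoprime_map (algebraMap F L₁), hp4, hq4]
      exact hco3
    have hmax4 : max p4.natDegree q4.natDegree = d := by
      rw [← natDegree_map (algebraMap F L₁), ← natDegree_map (p := q4) (algebraMap F L₁), hp4, hq4,
        hmax3]
    refine Pool.Agent.Q285.GT.algebraic_of_gens _ (adjoin_top (k := k) (T : Set L)) F ?_
    rintro ⟨t, ht⟩
    have ht' : t ∈ T := ht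
    rw [hT, mem_union, mem_union, mem_image, mem_image, mem_image] at ht'
    rcases ht' with (⟨i, -, rfl⟩ | ⟨i, -, rfl⟩) | ⟨z, hz, rfl⟩
    · have h1 : (⟨p1.coeff i, IntermediateField.subset_adjoin k _ ht⟩ : L₁) = p3.coeff i := by
        apply hφinj
        rw [← coeff_map, hp3]
        rfl
      rw [h1, ← hp4, coeff_map]
      exact isAlgebraic_algebraMap _
    · have h1 : (⟨q1.coeff i, IntermediateField.subset_adjoin k _ ht⟩ : L₁) = q3.coeff i := by
        apply hφinj
        rw [← coeff_map, hq3]
        rfl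
      rw [h1, ← hq4, coeff_map]
      exact isAlgebraic_algebraMap _
    · cases z with
      | none =>
        have h1 : (⟨(none : Option L).getD 0, IntermediateField.subset_adjoin k _ ht⟩ : L₁) = 0 := by
          apply hφinj
          rw [map_zero]
          rfl
        rw [h1]
        exact isAlgebraic_zero
      | some s =>
        have h0 : (some (⟨s, IntermediateField.subset_adjoin k _ ht⟩ : L₁)) ∈ S3 :=
          (hmemS3 _).2 hz
        have h1 : some (⟨s, IntermediateField.subset_adjoin k _ ht⟩ : L₁) ∈
            prePer d (p4.map (algebraMap F L₁)) (q4.map (algebraMap F L₁)) := by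
          rw [hp4, hq4]
          refine S3.finite_toSet.subset ?_
          rintro _ ⟨m, rfl⟩
          induction m with
          | zero => exact h0
          | succ m ih =>
            simp only [Function.iterate_succ_apply']
            exact hst3 _ ih
        exact alg_of_prePer hd hco4 hmax4 h1
  obtain ⟨p', q', P', hp', hq', hpq', hst, hc, halg'⟩ := Pool.Agent.Q225.GT.aff k L₁ d hd p3 q3
    hco3 hmax3 S3 hst3 ((hmemS3 _).2 s0)
    ((hmemS3 _).2 (by show some (φ 0) ∈ S; rw [map_zero]; exact s1))
    ((hmemS3 _).2 (by show some (φ 1) ∈ S; rw [map_one]; exact s2)) (by omega) halg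
  refine ⟨T, p', q', P', hp', hq', hpq', hst, by omega, halg', fun hk => ?_⟩
  -- isotrivial maps
  set χ := algebraMap L (AlgebraicClosure L) with hχ
  refine ⟨p1.map χ, q1.map χ, χ a, χ b, χ c, χ e, ?_, hco1.map (mapRingHom χ), ?_, ?_,
    fun y => hconj _ χ y⟩
  · rw [← map_mul, ← map_mul, ← map_sub]
    exact (map_ne_zero χ).2 hdet
  · rw [natDegree_map, natDegree_map, hmax1]
  · have key : ∀ g : L₁[X], ∀ i, IsAlgebraic k (((g.map φ).map χ).coeff i) := by
      intro g i
      rw [coeff_map, coeff_map]
      have h1 : IsAlgebraic k (g.coeff i) := hk.isAlgebraic _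
      have h2 : IsAlgebraic k (φ (g.coeff i)) := h1.algebraMap
      exact h2.algebraMap
    intro i
    rw [← hp3, ← hq3]
    exact ⟨key p3 i, key q3 i⟩

end Pool.Agent.Q103.EC
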