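import Pool.Agent.Q103.EC.Hyp

/-!
# The examples are function fields
-/

set_option autoImplicit false

namespace Pool.Agent.Q103.EC

open FF Polynomial Metric
open Pool.Agent.W602.GT
open Pool.Agent.Q41.SU
open Pool.Agent.Q41.GT
open Pool.Agent.TH466.QG (SubOf StronglyGeneral)

/-- the fraction field of a finitely generated domain is the function field of a projective variety -/
theorem exists_coords (σ : Type) [Finite σ] (P : Ideal (MvPolynomial σ ℂ)) [P.IsPrime] :
    ∃ (M : ℕ) (x : Fin (M + 1) → FractionRing (MvPolynomial σ ℂ ⧸ P)), x ≠ 0 ∧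
      coords ℂ x = ⊤ := by
  classical
  obtain ⟨M, ⟨e⟩⟩ := Finite.exists_equiv_fin σ
  let g : σ → FractionRing (MvPolynomial σ ℂ ⧸ P) := fun s =>
    algebraMap (MvPolynomial σ ℂ ⧸ P) _ (Ideal.Quotient.mk P (MvPolynomial.X s))
  let x : Fin (M + 1) → FractionRing (MvPolynomial σ ℂ ⧸ P) := Fin.cons 1 (fun i => g (e.symm i))
  refine ⟨M, x, ?_, ?_⟩
  · intro h
    have h0 : x 0 = 0 := by rw [h]; rfl
    simp [x] at h0
  · rw [eq_top_iff]
    intro z _
    have hs : ∀ s, g s ∈ coords ℂ x := by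
      intro s
      apply IntermediateField.subset_adjoin
      exact ⟨(e s).succ, 0, by simp [x], by simp [x]⟩
    have hr : ∀ a : MvPolynomial σ ℂ ⧸ P,
        algebraMap (MvPolynomial σ ℂ ⧸ P) (FractionRing (MvPolynomial σ ℂ ⧸ P)) a ∈ coords ℂ x := by
      intro a
      obtain ⟨a, rfl⟩ := Ideal.Quotient.mk_surjective a
      induction a using MvPolynomial.induction_on with
      | C c => exact (coords ℂ x).algebraMap_mem c
      | add p q hp hq =>
        rw [map_add, map_add]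
        exact add_mem hp hq
      | mul_X p s hp =>
        rw [map_mul, map_mul]
        exact mul_mem hp (hs s)
    obtain ⟨a, b, hb, rfl⟩ := IsFractionRing.div_surjective (A := MvPolynomial σ ℂ ⧸ P) z
    exact div_mem (hr a) (hr b)

/-- **Examples**: function fields of projective varieties of dimension `2 d - 2` with a rational map of
degree `d` with `n` preperiodic points. -/
theorem exists_variety (d : ℕ) (hd : 2 ≤ d) (n : ℕ) (hn : 3 ≤ n) :
    ∃ (K : Type) (_ : Field K) (_ : Algebra ℂ K) (p q : K[X]), ManyPrep ℂ d n p q ∧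
      Algebra.trdeg ℂ K = (2 * d - 2 : ℕ) ∧
      ∃ (M : ℕ) (x : Fin (M + 1) → K), x ≠ 0 ∧ coords ℂ x = ⊤ := by
  have hne := b_nem d n hd hn
  have hI : MvPolynomial.vanishingIdeal ℂ (V d n ℂ) ≠ ⊤ := by
    intro h
    obtain ⟨y, hy⟩ := hne
    have h1 : (1 : MvPolynomial (Sg d) ℂ) ∈ MvPolynomial.vanishingIdeal ℂ (V d n ℂ) := by
      rw [h]
      exact Submodule.mem_top
    have h2 := (MvPolynomial.mem_vanishingIdeal_iff.1 h1) y hy
    simp at h2
  obtain ⟨P, hP⟩ := Ideal.nonempty_minimalPrimes hI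
  have : P.IsPrime := hP.1.1
  obtain ⟨h1, h2⟩ := b_cmp ℂ d n hd (by omega) P hP
  have hF := Pool.Agent.Q176.GT.R3.fun_ ℂ (Sg d) _ P h1
  have hx := b_gnp ℂ _ d n hd (by omega) _ Set.inter_subset_left _ hF
  have : CharZero (FractionRing (MvPolynomial (Sg d) ℂ ⧸ P)) :=
    charZero_of_injective_algebraMap (algebraMap ℂ _).injective
  exact ⟨FractionRing (MvPolynomial (Sg d) ℂ ⧸ P), inferInstance, inferInstance, num d _, den d _,
    manyPrep_of_mem hd hn hx hF.2, h2, exists_coords (Sg d) P⟩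

/-- surfaces -/
theorem exists_surface_gen (n : ℕ) (hn : 3 ≤ n) :
    ∃ (K : Type) (_ : Field K) (_ : Algebra ℂ K) (p q : K[X]), ManyPrep ℂ 2 n p q ∧
      Algebra.trdeg ℂ K = (2 : ℕ) ∧
      ∃ (M : ℕ) (x : Fin (M + 1) → K), x ≠ 0 ∧ coords ℂ x = ⊤ := by
  obtain ⟨K, i1, i2, p, q, h1, h2, h3⟩ := exists_variety 2 le_rfl n hn
  exact ⟨K, i1, i2, p, q, h1, h2, h3⟩

end Pool.Agent.Q103.EC
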