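import Pool.Agent.Q103.EC.Fam
import Pool.Agent.Q53.EC.Var
import Pool.Agent.Q41.GT.Elem

/-!
# Maps with the preperiodic points `∞`, `0`, `1`

The moduli map of such a map is generically finite if (and only if) the function field is algebraic
over the field generated by the coefficients. In particular the generic maps of the components of
the moduli spaces `V d n` have many preperiodic points and generically finite moduli map.
-/

set_option autoImplicit false

namespace Pool.Agent.Q103.EC

open Finset Polynomial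
open Pool.Agent.Q41.SU
open Pool.Agent.Q41.GT
open Pool.Agent.W277.UH (ratP1 ratP1_some ratP1_some0 ratP1_none ratP1_none0)
open Pool.Agent.Q68.GT (cp three cp_conj cp_coprime cp_max mob_inv)

/-- two maps with the same values are proportional -/
lemma prop_of_eq {A : Type} [Field A] [Infinite A] {d : ℕ} {p q p1 q1 : A[X]}
    (hco : IsCoprime p q) (hco1 : IsCoprime p1 q1) (hq : q ≠ 0) (hq1 : q1 ≠ 0)
    (h : ∀ z, ratP1 p q d z = ratP1 p1 q1 d z) : ∃ t : A, t ≠ 0 ∧ p = C t * p1 ∧ q = C t * q1 := by
  classical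
  have h1 : p * q1 = p1 * q := by
    have h2 : (p * q1 - p1 * q) * (q * q1) = 0 := by
      apply Polynomial.funext
      intro z
      rw [eval_mul, eval_mul, eval_sub, eval_mul, eval_mul, eval_zero]
      by_cases hz : q.eval z = 0
      · rw [hz]
        ring
      by_cases hz1 : q1.eval z = 0
      · rw [hz1]
        ring
      have h3 := h (some z)
      rw [ratP1_some _ _ _ _ hz, ratP1_some _ _ _ _ hz1] at h3
      have h4 := Option.some_inj.1 h3
      rw [div_eq_div_iff hz hz1] at h4
      rw [h4]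
      ring
    rcases mul_eq_zero.1 h2 with h3 | h3
    · exact sub_eq_zero.1 h3
    · exact absurd h3 (mul_ne_zero hq hq1)
  have hd1 : q ∣ q1 := by
    have : q ∣ p * q1 := by
      rw [h1]
      exact dvd_mul_left _ _
    exact hco.symm.dvd_of_dvd_mul_left this
  have hd2 : q1 ∣ q := by
    have : q1 ∣ p1 * q := by
      rw [← h1]
      exact dvd_mul_left _ _
    exact hco1.symm.dvd_of_dvd_mul_left this
  obtain ⟨u, hu⟩ := associated_of_dvd_dvd hd2 hd1
  obtain ⟨t, ht, htu⟩ := Polynomial.isUnit_iff.1 u.isUnit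
  have hq' : q = C t * q1 := by
    rw [← hu, htu, mul_comm]
  refine ⟨t, ht.ne_zero, ?_, hq'⟩
  have h5 : q1 * (p - C t * p1) = 0 := by
    rw [mul_sub, mul_comm q1 p, h1, hq']
    ring
  exact sub_eq_zero.1 ((mul_eq_zero.1 h5).resolve_left hq1)

/-- composition with a map of the prepared form, on points -/
lemma option_map_inj {K E : Type} [Field K] [Field E] (φ : K →+* E) :
    Function.Injective (Option.map φ) := Option.map_injective φ.injective

/-- a Moebius map which fixes `∞`, `0`, `1` -/
lemma mob_id {A : Type} [Field A] {a b c e : A} (hdet : a * e - b * c ≠ 0)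
    (h0 : ratP1 (C a * X + C b) (C c * X + C e) 1 none = none)
    (h1 : ratP1 (C a * X + C b) (C c * X + C e) 1 (some 0) = some 0)
    (h2 : ratP1 (C a * X + C b) (C c * X + C e) 1 (some 1) = some 1) : b = 0 ∧ c = 0 ∧ a = e := by
  have hc : c = 0 := by
    by_contra hc
    have e1 : (C c * X + C e).coeff 1 = c := by simp
    rw [ratP1_none _ _ _ (by rw [e1]; exact hc)] at h0
    cases h0
  subst hc
  have he : e ≠ 0 := by
    rintro rfl
    apply hdet
    ring
  have e2 : ∀ t, (C 0 * X + C e).eval t = e := by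
    intro t
    simp
  have hb : b = 0 := by
    rw [ratP1_some _ _ _ _ (by rw [e2]; exact he), e2] at h1
    have h3 := Option.some_inj.mp h1
    rw [div_eq_zero_iff] at h3
    have h4 := h3.resolve_right he
    simpa using h4
  subst hb
  refine ⟨rfl, rfl, ?_⟩
  rw [ratP1_some _ _ _ _ (by rw [e2]; exact he), e2] at h2
  have h3 := Option.some_inj.mp h2
  rw [div_eq_one_iff_eq he] at h3
  simpa using h3

theorem maxVar_of_normal {k K : Type} [Field k] [CharZero k] [Field K] [Algebra k K] {d : ℕ}
    (hd : 2 ≤ d) {p q : K[X]} (hco : IsCoprime p q) (hmax : max p.natDegree q.natDegree = d)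
    (h3 : ∀ z : Option K, z = none ∨ z = some 0 ∨ z = some 1 → z ∈ prePer d p q)
    (halg : Algebra.IsAlgebraic (IntermediateField.adjoin k (rats p q)) K) : MaxVar k d p q := by
  classical
  intro F p' q' a b c e hdet hco' hmax' hF hconj
  set φ := algebraMap K (AlgebraicClosure K) with hφ
  set k' := algebraicClosure F (AlgebraicClosure K) with hk'
  have : IsAlgClosed k' := IsAlgClosure.isAlgClosed F
  set ψ := algebraMap k' (AlgebraicClosure K) with hψ
  have : CharZero K := charZero_of_injective_algebraMap (algebraMap k K).injective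
  have : CharZero (AlgebraicClosure K) := charZero_of_injective_algebraMap φ.injective
  have hinf : Infinite (AlgebraicClosure K) := CharZero.infinite _
  have hd1 : 1 ≤ d := by omega
  -- `p'`, `q'` are defined over `k'`
  have hlift : ∀ g : (AlgebraicClosure K)[X], (∀ i, IsAlgebraic F (g.coeff i)) → ∃ g' : k'[X], g'.map ψ = g := by
    intro g hg
    have : g ∈ Polynomial.lifts ψ := by
      rw [Polynomial.lifts_iff_coeff_lifts]
      intro i
      exact ⟨⟨g.coeff i, mem_algebraicClosure_iff.2 (hg i)⟩, rfl⟩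
    obtain ⟨g', hg'⟩ := this
    exact ⟨g', hg'⟩
  obtain ⟨u, hu⟩ := hlift p' fun i => (hF i).1
  obtain ⟨w, hw⟩ := hlift q' fun i => (hF i).2
  have hcouw : IsCoprime u w := by
    rw [← Polynomial.isCoprime_map ψ, hu, hw]
    exact hco'
  have hmaxuw : max u.natDegree w.natDegree = d := by
    rw [← natDegree_map ψ, ← natDegree_map (p := w) ψ, hu, hw, hmax']
  set M : Option (AlgebraicClosure K) → Option (AlgebraicClosure K) := ratP1 (C a * X + C b) (C c * X + C e) 1 with hM
  have hMinj : Function.Injective M := Function.LeftInverse.injective (mob_inv hdet)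
  -- the images of preperiodic points are in `P^1(k')`
  have hsemi : Function.Semiconj M (ratP1 (p.map φ) (q.map φ) d) (ratP1 p' q' d) := hconj
  have himg : ∀ z : Option K, z ∈ prePer d p q → ∃ y : Option k', Option.map ψ y =
      M (Option.map φ z) := by
    intro z hz
    have h1 : M (Option.map φ z) ∈ prePer d p' q' := by
      have hs : Function.Semiconj (Option.map φ) (ratP1 p q d) (ratP1 (p.map φ) (q.map φ) d) :=
        fun y => ratP1_map φ d p q y
      have h2 : (Set.range fun m : ℕ => (ratP1 p' q' d)^[m] (M (Option.map φ z))) ⊆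
          (fun y => M (Option.map φ y)) '' (Set.range fun m : ℕ => (ratP1 p q d)^[m] z) := by
        rintro _ ⟨m, rfl⟩
        refine ⟨_, ⟨m, rfl⟩, ?_⟩
        have e1 := (hs.iterate_right m).eq z
        have e2 := (hsemi.iterate_right m).eq (Option.map φ z)
        simp only
        rw [e1, e2]
      exact (Set.Finite.image _ hz).subset h2
    cases h0 : M (Option.map φ z) with
    | none => exact ⟨none, rfl⟩
    | some s =>
      rw [h0, ← hu, ← hw] at h1
      have h2 : IsAlgebraic k' s := alg_of_prePer hd hcouw hmaxuw h1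
      have h3 : IsAlgebraic F s := by
        have : Algebra.IsAlgebraic F k' := inferInstance
        exact h2.restrictScalars F
      exact ⟨some ⟨s, mem_algebraicClosure_iff.2 h3⟩, rfl⟩
  obtain ⟨y0, hy0⟩ := himg none (h3 _ (Or.inl rfl))
  obtain ⟨y1, hy1⟩ := himg (some 0) (h3 _ (Or.inr (Or.inl rfl)))
  obtain ⟨y2, hy2⟩ := himg (some 1) (h3 _ (Or.inr (Or.inr rfl)))
  rw [Option.map_none] at hy0
  rw [Option.map_some, map_zero] at hy1
  rw [Option.map_some, map_one] at hy2
  have n01 : y0 ≠ y1 := by
    intro h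
    rw [h, hy1] at hy0
    exact absurd (hMinj hy0) (by simp)
  have n02 : y0 ≠ y2 := by
    intro h
    rw [h, hy2] at hy0
    exact absurd (hMinj hy0) (by simp)
  have n12 : y1 ≠ y2 := by
    intro h
    rw [h, hy2] at hy1
    have := hMinj hy1
    exact one_ne_zero (Option.some_inj.1 this)
  obtain ⟨a', b', c', e', hdet', g0, g1, g2⟩ := three n01 n02 n12
  set N : Option (AlgebraicClosure K) → Option (AlgebraicClosure K) := ratP1 (C (ψ a') * X + C (ψ b')) (C (ψ c') * X + C (ψ e')) 1
    with hN
  have hNmap : ∀ y : Option k', N (Option.map ψ y) =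
      Option.map ψ (ratP1 (C a' * X + C b') (C c' * X + C e') 1 y) := by
    intro y
    rw [ratP1_map, hN]
    congr 1 <;> simp
  have hdetψ : ψ a' * ψ e' - ψ b' * ψ c' ≠ 0 := by
    rw [← map_mul, ← map_mul, ← map_sub]
    exact (map_ne_zero ψ).2 hdet'
  -- `N ∘ M` is the identity
  set α := ψ a' * a + ψ b' * c with hα
  set β := ψ a' * b + ψ b' * e with hβ
  set γ := ψ c' * a + ψ e' * c with hγ
  set δ := ψ c' * b + ψ e' * e with hδ
  have hNM : ∀ y, N (M y) = ratP1 (C α * X + C β) (C γ * X + C δ) 1 y := by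
    intro y
    obtain ⟨V, hV, rfl⟩ := Pool.Agent.Q68.GT.exists_ptp y
    rw [hN, hM, Pool.Agent.Q68.GT.mob_ptp _ _ _ _ hV, Pool.Agent.Q68.GT.mob_ptp _ _ _ _
      (V := (a * V.1 + b * V.2, c * V.1 + e * V.2)) (Pool.Agent.Q68.GT.img_ne hdet hV),
      Pool.Agent.Q68.GT.mob_ptp _ _ _ _ hV]
    congr 1
    refine Prod.ext ?_ ?_
    · show ψ a' * (a * V.1 + b * V.2) + ψ b' * (c * V.1 + e * V.2) = α * V.1 + β * V.2
      rw [hα, hβ]
      ring
    · show ψ c' * (a * V.1 + b * V.2) + ψ e' * (c * V.1 + e * V.2) = γ * V.1 + δ * V.2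
      rw [hγ, hδ]
      ring
  have hdet2 : α * δ - β * γ ≠ 0 := by
    have : α * δ - β * γ = (ψ a' * ψ e' - ψ b' * ψ c') * (a * e - b * c) := by
      rw [hα, hβ, hγ, hδ]
      ring
    rw [this]
    exact mul_ne_zero hdetψ hdet
  obtain ⟨hβ0, hγ0, hαδ⟩ := mob_id hdet2 (by
      rw [← hNM, ← hy0, hNmap, g0, Option.map_none]) (by
      rw [← hNM, ← hy1, hNmap, g1, Option.map_some, map_zero]) (by
      rw [← hNM, ← hy2, hNmap, g2, Option.map_some, map_one])
  have hid : ∀ y, N (M y) = y := by
    intro y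
    have hα0 : α ≠ 0 := by
      intro h0
      apply hdet2
      rw [h0, hβ0]
      ring
    obtain ⟨V, hV, rfl⟩ := Pool.Agent.Q68.GT.exists_ptp y
    rw [hNM, Pool.Agent.Q68.GT.mob_ptp _ _ _ _ hV, hβ0, hγ0, ← hαδ, ← Pool.Agent.Q68.GT.ptp_smul hα0 V]
    congr 1
    refine Prod.ext ?_ ?_
    · show α * V.1 + 0 * V.2 = α * V.1
      ring
    · show 0 * V.1 + α * V.2 = α * V.2
      ring
  -- so the map is defined over `k'`
  set p1 := cp d u w a' b' c' e' a' b' with hp1
  set q1 := cp d u w a' b' c' e' c' e' with hq1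
  have hco1 : IsCoprime p1 q1 := cp_coprime hd1 hcouw hmaxuw hdet'
  have hmax1 : max p1.natDegree q1.natDegree = d := cp_max hd1 hcouw hmaxuw hdet'
  have hval : ∀ y, ratP1 (p.map φ) (q.map φ) d y = ratP1 (p1.map ψ) (q1.map ψ) d y := by
    intro y
    have e1 := hconj y
    have e2 := cp_conj hd1 (p := u.map ψ) (q := w.map ψ) (hcouw.map (mapRingHom ψ)) (by
      rw [natDegree_map, natDegree_map, hmaxuw]) hdetψ (M y)
    rw [hp1, hq1, cp_map, cp_map]
    rw [← hid (ratP1 (p.map φ) (q.map φ) d y)]
    show N (M (ratP1 (p.map φ) (q.map φ) d y)) = _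
    have e3 : M (ratP1 (p.map φ) (q.map φ) d y) = ratP1 (u.map ψ) (w.map ψ) d (M y) := by
      rw [hu, hw]
      exact e1
    rw [e3]
    have e4 : N (ratP1 (u.map ψ) (w.map ψ) d (M y)) = _ := e2
    rw [e4]
    show ratP1 _ _ d (N (M y)) = _
    rw [hid]
  have hne : ∀ {E : Type} [Field E] (f g : E[X]), IsCoprime f g → max f.natDegree g.natDegree = d →
      g ≠ 0 := by
    rintro E _ f g hfg hm rfl
    rw [isCoprime_zero_right] at hfg
    have h0 := natDegree_eq_zero_of_isUnit hfg
    rw [h0, natDegree_zero] at hm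
    simp at hm
    omega
  have hcoφ : IsCoprime (p.map φ) (q.map φ) := hco.map (mapRingHom φ)
  have hcoψ : IsCoprime (p1.map ψ) (q1.map ψ) := hco1.map (mapRingHom ψ)
  obtain ⟨t, ht, hpt, hqt⟩ := prop_of_eq (d := d) hcoφ hcoψ
    (hne _ _ hcoφ (by rw [natDegree_map, natDegree_map, hmax]))
    (hne _ _ hcoψ (by rw [natDegree_map, natDegree_map, hmax1])) hval
  -- the ratios of the coefficients are algebraic over `F`
  have hrat : ∀ r ∈ rats p q, IsAlgebraic F r := by
    rintro r ⟨f, g, hf, hg, i, j, rfl⟩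
    have hc : ∀ f : K[X], (f = p ∨ f = q) → ∀ i, ∃ s : k', φ (f.coeff i) = t * ψ s := by
      rintro f (rfl | rfl) i
      · refine ⟨p1.coeff i, ?_⟩
        rw [← coeff_map, hpt, coeff_C_mul, coeff_map]
      · refine ⟨q1.coeff i, ?_⟩
        rw [← coeff_map, hqt, coeff_C_mul, coeff_map]
    obtain ⟨s, hs⟩ := hc f hf i
    obtain ⟨s', hs'⟩ := hc g hg j
    have h1 : φ (f.coeff i / g.coeff j) = ψ (s / s') := by
      rw [map_div₀, hs, hs', map_div₀, mul_div_mul_left _ _ ht]
    have h2 : IsAlgebraic F (φ (f.coeff i / g.coeff j)) := by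
      rw [h1]
      exact mem_algebraicClosure_iff.1 (s / s').2
    exact (isAlgebraic_algebraMap_iff φ.injective).1 h2
  have hle : IntermediateField.adjoin k (rats p q) ≤ (algebraicClosure F K).restrictScalars k := by
    rw [IntermediateField.adjoin_le_iff]
    intro r hr
    exact mem_algebraicClosure_iff.2 (hrat r hr)
  refine ⟨fun y => ?_⟩
  have h0 : IsAlgebraic ((algebraicClosure F K).restrictScalars k) y :=
    Pool.Agent.Q53.EC.alg_mono hle (halg.isAlgebraic y)
  have h1 : IsAlgebraic (algebraicClosure F K) y := h0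
  have : Algebra.IsAlgebraic F (algebraicClosure F K) := inferInstance
  exact h1.restrictScalars F

/-- the generic maps of the subvarieties of the moduli spaces -/
theorem manyPrep_of_mem {k K : Type} [Field k] [CharZero k] [Field K] [Algebra k K] {d n : ℕ}
    (hd : 2 ≤ d) (hn : 3 ≤ n) {y : Sg d → K} (hy : y ∈ V d n K)
    (hgen : IntermediateField.adjoin k (Set.range y) = ⊤) :
    ManyPrep k d n (num d y) (den d y) := by
  have hmax : max (num d y).natDegree (den d y).natDegree = d := max_natDegree _ (by omega)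
  refine ⟨hy.1, hmax, ?_, many_points _ (by omega) hy⟩
  exact maxVar_of_normal hd hy.1 hmax (fun z hz => prep_points _ (by omega) (by omega) hy z hz)
    (isAlgebraic_of_eq_top (adjoin_rats _ (by omega) hgen))

end Pool.Agent.Q103.EC
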