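import Pool.Agent.Q103.EC.Stm2
import Pool.Agent.Q41.GT.Mod
import Pool.Agent.Y221.PD.Defs
import Pool.Agent.TH466.QG.Strong
import Pool.Agent.Y216.Point

/-!
# Statements, part 3: varieties
-/

namespace Pool.Agent.Q103.EC

open Finset Polynomial FF
open Pool.Agent.W602.GT
open Pool.Agent.Q41.SU
open Pool.Agent.Q41.GT
open Pool.Agent.Y221.AP (MK MDer Om MInf)
open Pool.Agent.Y221.PD (PseudoPicard)
open Pool.Agent.TH466.QG (Sp StronglyGeneral)
open Pool.Agent.W603.LV (canDeg hgt)
open Pool.Agent.W603.PV (pht)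
open Pool.Agent.Y216 (CurveBound)

/-- (C1) **Spreading out**, for the trivial extension. Proof: the beginning of the proof of
`Pool.Agent.TH466.QG.spread` (file `TH466/QG/Spread.lean`): `exists_den`, and `Sp.ofHom` for the two
projections of `graph k x z`. -/
def S_spr : Prop :=
  ∀ (k L : Type) [Field k] [Field L] [Algebra k L] (σ : Type) (x : σ → L),
    IntermediateField.adjoin k (Set.range x) = ⊤ → ∀ Θ : Set L, Θ.Finite →
    ∃ H : MvPolynomial σ k, MvPolynomial.aeval x H ≠ 0 ∧
      ∀ (E : Type) [Field E] [Algebra k E] (z : σ → E),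
        (∀ G : MvPolynomial σ k, MvPolynomial.aeval x G = 0 → MvPolynomial.aeval z G = 0) →
        MvPolynomial.aeval z H ≠ 0 →
        ∃ S : Sp k L E, (∀ i, S.T (x i) (z i)) ∧ ∀ ϑ ∈ Θ, ∃ t, S.T ϑ t

/-- (C2) **Specialization of a map with its points.** Proof. `Θ` contains the coefficients of `p` and
`q`, the inverse of the leading coefficient of `q`, the resultant and its inverse, the elements of
`P`, the `(z - z')⁻¹` (`z ≠ z'` in `P`) and the `(q.eval z)⁻¹`. Let `p'`, `q'` be the polynomials with the
specialized coefficients (`p'.coeff i = 0` for `i > d`), `P'` the set of the specializations of the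
elements of `P`: different elements have different specializations, `q'` has degree `d`, the resultant
of `p'`, `q'` (degrees `d`, `d`) is the specialization of that of `p`, `q`, so it is not zero and `p'`, `q'`
are coprime, `q'(z') ≠ 0` and `p'(z') / q'(z')` is the specialization of `p(z) / q(z)`, an element of `P`.
The cross ratios of `P'` are the specializations of the cross ratios of `P`. -/
def S_spm : Prop :=
  ∀ (k K : Type) [Field k] [Field K] [Algebra k K] (d : ℕ) (p q : K[X]), 1 ≤ d →
    p.natDegree ≤ d → q.natDegree = d → IsCoprime p q → ∀ P : Finset K, Stab p q P →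
    ∃ Θ : Set K, Θ.Finite ∧ ∀ (E : Type) [Field E] [Algebra k E] (S : Sp k K E),
      (∀ ϑ ∈ Θ, ∃ t, S.T ϑ t) → ∃ (p' q' : E[X]) (P' : Finset E), p'.natDegree ≤ d ∧
        q'.natDegree = d ∧ IsCoprime p' q' ∧ Stab p' q' P' ∧ P'.card = P.card ∧
        (∀ c ∈ crs P, ∃ c' ∈ crs P', S.T c c') ∧ ∀ c' ∈ crs P', ∃ c ∈ crs P, S.T c c'

/-- (C3) **Specialization of algebraic elements.** `C₀` is finite. Proof. As `alg_spec`
(`TH466/QG/Strong.lean`): the coefficients of the minimal polynomials of the `u i` over
`adjoin k C₀` are quotients of polynomials in the elements of `C₀` with a common denominator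
(`exists_den`), `Θ` consists of the inverse of this denominator. -/
def S_spa : Prop :=
  ∀ (k K : Type) [Field k] [Field K] [Algebra k K] (N m : ℕ) (c : Fin N → K) (u : Fin m → K),
    (∀ i, IsAlgebraic (IntermediateField.adjoin k (Set.range c)) (u i)) →
    ∃ Θ : Set K, Θ.Finite ∧ ∀ (E : Type) [Field E] [Algebra k E] (S : Sp k K E),
      (∀ ϑ ∈ Θ, ∃ t, S.T ϑ t) → ∀ (c' : Fin N → E) (u' : Fin m → E), (∀ i, S.T (c i) (c' i)) →
      (∀ i, S.T (u i) (u' i)) → ∀ i, IsAlgebraic (IntermediateField.adjoin k (Set.range c')) (u' i)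

/-- (C4) **Varieties carrying a map with a stable set.** `x` is the generic point, in homogeneous
coordinates, of a projective variety `V` with the function field `K`, `p / q` a map over `K` with the
stable set `P` such that `K` is algebraic over the field of the cross ratios. The forms `g 0`, …, `g N`
define the rational map `(1 : cross ratios)`. Proof. Choose `i₁` with `x i₁ ≠ 0`. The coordinates
`x i / x i₁` generate `K` (`adjoin_norm`). Take `H` from (C1) for the union of the `Θ` of (C2), of (C3)
(`c` = list of `crs P`, a finite set, `u i = x i / x i₁`) and of the `(x i / x i₁)⁻¹`, `x i ≠ 0`. Write the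
elements `1`, `crs P` as `G_i(x / x i₁) / G₀(x / x i₁)` (`exists_den`), let `g i` be the homogenizations with
respect to `i₁`, of the same degree, and
`R = X i₁ * hz i₁ H * g 0` (`hz`, `hz_form`, `val_hz` in `TH466/QG/Strong.lean`). For a point `z` of `V` over `E` with
`val z R ≠ 0` the coordinates `z i / z i₁` satisfy the relations of the `x i / x i₁`, (as in
`Pool.Agent.TH466.QG.strong_main`), so (C1) gives `S` and (C2), (C3) apply. If `z j ≠ 0` then
`z i / z j = (z i / z i₁) / (z j / z i₁)`. (`S_spr`, `S_spm`, `S_spa` may be assumed.) -/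
def S_var : Prop :=
  ∀ (k K : Type) [Field k] [Field K] [Algebra k K] (M : ℕ) (x : Fin (M + 1) → K), x ≠ 0 →
    coords k x = ⊤ → ∀ (d : ℕ) (p q : K[X]), 1 ≤ d → p.natDegree ≤ d → q.natDegree = d →
    IsCoprime p q → ∀ P : Finset K, Stab p q P →
    Algebra.IsAlgebraic (IntermediateField.adjoin k (crs P)) K →
    ∃ (R : MvPolynomial (Fin (M + 1)) k) (N e : ℕ) (g : Fin (N + 1) → MvPolynomial (Fin (M + 1)) k),
      IsForm R ∧ val x R ≠ 0 ∧ (∀ i, (g i).IsHomogeneous e) ∧ val x (g 0) ≠ 0 ∧
      (∀ c ∈ crs P, ∃ i, val x (g i) / val x (g 0) = c) ∧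
      ∀ (E : Type) [Field E] [Algebra k E] (z : Fin (M + 1) → E),
        (∀ G : MvPolynomial (Fin (M + 1)) k, IsForm G → val x G = 0 → val z G = 0) →
        val z R ≠ 0 → ∃ (p' q' : E[X]) (P' : Finset E), p'.natDegree ≤ d ∧ q'.natDegree = d ∧
          IsCoprime p' q' ∧ Stab p' q' P' ∧ P'.card = P.card ∧ val z (g 0) ≠ 0 ∧
          (∀ i, val z (g i) / val z (g 0) = 1 ∨ val z (g i) / val z (g 0) ∈ crs P') ∧
          ∀ i j, z j ≠ 0 → IsAlgebraic (IntermediateField.adjoin k (crs P')) (z i / z j)

/-- (C5) **Punctured discs.** Proof. Take `R` from (C4) with `k = ℂ`, `B` from (B6) `S_mer`. Let `f` be a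
holomorphic map from the punctured disc to `V` with an essential singularity, not in `R = 0`. As in
`Pool.Agent.Y221.PD.picard_main` (file `Y221/PD/Main.lean`) it gives a point `z` over `MK`
(`z i` = class of `w ↦ f (1 / w) i`) on which the forms vanish which vanish at `x`, `val z R ≠ 0`. By (C4)
and `S_mer` there are `P'` with `crs P'` in `MI`, so the `z i / z j` are algebraic over `MI`, so in `MI`
(`minf_of_alg`), and `f` extends, as at the end of `picard_main`. (`S_var`, `S_mer` may be assumed.) -/
def S_pic : Prop :=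
  ∀ d : ℕ, 2 ≤ d → ∃ B : ℕ, ∀ (K : Type) [Field K] [Algebra ℂ K] (M : ℕ) (x : Fin (M + 1) → K),
    x ≠ 0 → coords ℂ x = ⊤ → ∀ p q : K[X], p.natDegree ≤ d → q.natDegree = d → IsCoprime p q →
    ∀ P : Finset K, Stab p q P → B ≤ P.card →
    Algebra.IsAlgebraic (IntermediateField.adjoin ℂ (crs P)) K → PseudoPicard x

/-- (C6) **Subvarieties.** Proof. `R` from (C4). Let `E`, `z` be a closed subvariety of positive dimension
not in `R = 0`. (C4) gives `p'`, `q'`, `P'` over `E`, and `E` is algebraic over `adjoin k (crs P')` because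
the `z i / z j` generate `E`. Apply `S_gt`. (`S_var`, `Pool.Agent.Q41.GT.S_gt` may be assumed.) -/
def S_str : Prop :=
  ∀ d : ℕ, 2 ≤ d → ∃ B : ℕ, ∀ (k K : Type) [Field k] [CharZero k] [Field K] [Algebra k K] (M : ℕ)
    (x : Fin (M + 1) → K), x ≠ 0 → coords k x = ⊤ → ∀ p q : K[X], p.natDegree ≤ d →
    q.natDegree = d → IsCoprime p q → ∀ P : Finset K, Stab p q P → B ≤ P.card →
    Algebra.IsAlgebraic (IntermediateField.adjoin k (crs P)) K → StronglyGeneral k x

/-- (C7) **The height inequality.** `K` is a function field of one variable, `canDeg k K = 2 g - 2`,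
`pht` the height of a point of a projective space. Proof. Let `B` be the bound of `S_red` for
`max N₀ (3 d + 4)`, `N₀` from `S_ndr`, as in (B6). Not all elements of `crs P` are constants, so
`ConjConst k p q d` is false (`S_crc`). Choose by `S_red` a stable subset `P'` of `P` with `Sur p q P'` and
at least `N₀` elements; by `S_ndr` there are rows `x` in `P'`, so in `P`, with `wro φ x (D x) ≠ 0` for the
derivation `D = der k K` (its field of constants is `k`, as `k` is algebraically closed). Let `E₀`, `α` be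
from `S_alp` for `P`, `n = |P|`, `C'` from (A7) for `n`, `E₀`. For a place `v` let `m = vo v D` be the order of
the vector field `D`; then `D' = π ^ (-m) D` is regular at `v`, and `PhiY … x D = π ^ (m h) PhiY … x D'`,
`h = cst φ * 2 (N - 1) b e` (`wro φ x y` is homogeneous in `y` of degree `cst φ`). By (A7) for `P` and `D'`,
`v.ord (PhiY … x D ^ C' * f) ≥ C' h m` for all `f` in `hfs`. Hence the point
`(PhiY ^ C' 𝒢 : PhiY ^ C' c 𝒢 : …)`, the same as `(1 : c : …)`, has height at most
`- C' h ∑ vo v D = C' h (2 g - 2)`. (`S_ordL`, `S_ndr`, `S_red`, `S_crc`, `S_alp`, `S_gfn` may be assumed.) -/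
def S_vht : Prop :=
  ∀ d : ℕ, 2 ≤ d → ∃ B : ℕ, ∀ n : ℕ, B ≤ n → ∃ A : ℕ, ∀ (k K : Type) [Field k] [CharZero k]
    [IsAlgClosed k] [Field K] [Algebra k K] [IsFF k K] (p q : K[X]), p.natDegree ≤ d →
    q.natDegree = d → IsCoprime p q → ∀ P : Finset K, Stab p q P → P.card = n →
    (∃ c ∈ crs P, c ∉ Set.range (algebraMap k K)) → ∀ (N : ℕ) (f : Fin (N + 1) → K), f 0 = 1 →
    (∀ i, f i = 1 ∨ f i ∈ crs P) → pht k f ≤ A * canDeg k K

/-- (C8) **Degrees of curves.** Proof. `R`, `g` from (C4), `B` from (C7). `K` is algebraic over the field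
of the ratios of the `val x (g i)`, so the height of `z` is at most `C` times the height of the point
`(val z (g i))` outside a closed subset `H = 0`: `Pool.Agent.Q271.RC.height_up` (file `Q271/RC/Cover.lean`, over
`ℂ`; adapt to `k` if necessary, its proof works over `k`). By (C7) the latter is at most `A (2 g - 2)` if
`crs P'` is not contained in `k`; otherwise the `z i / z j` are algebraic over `k`, so constants, and the
height of `z` is `0`. (`S_var`, `S_vht` may be assumed.) -/
def S_cvb : Prop :=
  ∀ d : ℕ, 2 ≤ d → ∃ B : ℕ, ∀ (K : Type) [Field K] [Algebra ℂ K] (M : ℕ) (x : Fin (M + 1) → K),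
    x ≠ 0 → coords ℂ x = ⊤ → ∀ p q : K[X], p.natDegree ≤ d → q.natDegree = d → IsCoprime p q →
    ∀ P : Finset K, Stab p q P → B ≤ P.card →
    Algebra.IsAlgebraic (IntermediateField.adjoin ℂ (crs P)) K → CurveBound ℂ x

/-- (C9) **Equations of the moduli space.** Proof. See the docstring of `Pool.Agent.Q41.GT.S_gnp`
(`Q41/GT/Stm5.lean`): `H = Res * ∏_{0 < m < n} B_m`, `B = B_n`. (`S_hom` may be assumed.) -/
def S_vdn : Prop :=
  ∀ (k : Type) [Field k] (d n : ℕ), 2 ≤ d → 1 ≤ n → ∃ H B : MvPolynomial (Sg d) k,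
    ∀ (L : Type) [Field L] [Algebra k L] (y : Sg d → L),
      y ∈ V d n L ↔ MvPolynomial.aeval y H ≠ 0 ∧ MvPolynomial.aeval y B = 0

/-- (C10) **The maps of the moduli space over a field.** `L₀ = adjoin k (range y)`. Proof. Over `L₀` apply
(L1) `S_aff` to `num d y`, `den d y` and the orbit of `∞`, which consists of `n` points, among them
`∞ ↦ 0 ↦ 1` (`num` has degree less than `d`, `den` is monic of degree `d`, with the same constant
coefficients). `L₀` is generated by the coefficients, so algebraic (equal) over `adjoin k (rats …)`.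
`V d n L₀` and `V d n L`: the orbit of `∞` does not change. (`S_aff` may be assumed.) -/
def S_vaf : Prop :=
  ∀ (k L : Type) [Field k] [CharZero k] [Field L] [Algebra k L] (d n : ℕ), 2 ≤ d →
    3 * d + 7 ≤ n → ∀ y ∈ V d n L, ∃ (p' q' : L[X]) (P' : Finset L), p'.natDegree ≤ d ∧
      q'.natDegree = d ∧ IsCoprime p' q' ∧ Stab p' q' P' ∧ P'.card = n ∧
      ∀ i, IsAlgebraic (IntermediateField.adjoin k (crs P')) (y i)

/-- (C11) **The moduli spaces are Borel hyperbolic**: holomorphic maps from punctured discs are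
meromorphic. Proof. `N₀` the maximum of `3 d + 7` and the bound of (B6). Let `z i` be the class in `MK` of
`w ↦ F (1 / w) i`. By (C9) `z ∈ V d n MK`. By (C10) and (B6) `z i` is algebraic over `MI`, so `MInf (z i)`.
(`S_mer`, `S_vdn`, `S_vaf` may be assumed.) -/
def S_brl : Prop :=
  ∀ d : ℕ, 2 ≤ d → ∃ N₀ : ℕ, ∀ n : ℕ, N₀ ≤ n → ∀ F : ℂ → Sg d → ℂ,
    (∀ i, DifferentiableOn ℂ (fun t => F t i) (Metric.ball 0 1 \ {0})) →
    (∀ t ∈ Metric.ball (0 : ℂ) 1 \ {0}, F t ∈ V d n ℂ) → ∀ i, MeromorphicAt (fun t => F t i) 0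

/-- (C12) **The moduli spaces are Brody hyperbolic.** Proof. By (C11) for `t ↦ F (1 / t)` the entire
functions `F t i` are meromorphic at infinity, so they are polynomials `f i`. `f` is a point of `V d n` over
`ℂ(t)` by (C9). If `f` is not constant `ℂ(t)` is algebraic over `adjoin ℂ (rats …)` and `S_gonl` with
`D = 1`, `w = 1` gives a contradiction if `n` is large. (`S_brl`, `S_vdn`, `Pool.Agent.Q41.GT.S_gonl` may be
assumed.) -/
def S_brd : Prop :=
  ∀ d : ℕ, 2 ≤ d → ∃ N₀ : ℕ, ∀ n : ℕ, N₀ ≤ n → ∀ F : ℂ → Sg d → ℂ,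
    (∀ i, Differentiable ℂ fun t => F t i) → (∀ t, F t ∈ V d n ℂ) → ∀ s t, F s = F t

/-- (C13) **The height inequality on the moduli spaces.** Proof. (C10), (C7) and heights of algebraic
functions: `y i` is algebraic over the field of the cross ratios; one needs a bound for the degree of
the relation which does not depend on `y`. By (C9) `V d n` over `k` is an affine variety with finitely
many components; use (C10) over their function fields, spread out ((C1), (C2)) and use induction on the
dimension of closed subsets (noetherian induction). Or directly: the coefficients of the map in normal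
form solve a linear system whose coefficients are polynomials in the coordinates (cross ratios) of
the points of the orbit, see the docstring of `S_aff`; Cramer's rule. In the second way `A` depends on
`d`, `n` only. (`S_vht`, `S_vdn`, `S_aff` may be assumed.) -/
def S_vdh : Prop :=
  ∀ d : ℕ, 2 ≤ d → ∃ N₀ : ℕ, ∀ n : ℕ, N₀ ≤ n → ∃ A : ℕ, ∀ (k K : Type) [Field k] [CharZero k]
    [IsAlgClosed k] [Field K] [Algebra k K] [IsFF k K], ∀ y ∈ V d n K,
    (∃ i, y i ∉ Set.range (algebraMap k K)) → ∀ i, hgt k (y i) ≤ A * canDeg k K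

/-- (C14) **Pointed curves in the moduli spaces.** Proof. Suppose that there are infinitely many such
`y`. By (C13) the heights of their coordinates are bounded. By `Pool.Agent.TH152.BB.bb_val` (with
`bb_all`, file `TH152/BB/App.lean`) there is a nonconstant point `G` over `RatFunc k` which satisfies all
polynomial relations of the `y` and such that polynomials which vanish at `G` vanish at `x`; by (C9)
`G ∈ V d n (RatFunc k)` (`B` vanishes, `H` does not as `H(x) ≠ 0`). This contradicts `S_gonl` (`D = 1`,
`w = 1`). (`S_vdh`, `S_vdn`, `S_gonl` may be assumed.) -/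
def S_vdp : Prop :=
  ∀ d : ℕ, 2 ≤ d → ∃ N₀ : ℕ, ∀ n : ℕ, N₀ ≤ n → ∀ (k L : Type) [Field k] [CharZero k]
    [IsAlgClosed k] [Field L] [Algebra k L] [IsFF k L] (c : Place k L), ∀ x ∈ V d n k,
    {y : Sg d → L | y ∈ V d n L ∧ ∀ i, y i = algebraMap k L (x i) ∨
      0 < c.ord (y i - algebraMap k L (x i))}.Finite

end Pool.Agent.Q103.EC
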