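import Pool.Agent.Q103.EC.All
import Pool.Agent.Q103.EC.Nvc
import Pool.Agent.Q41.GT.Ah
import Pool.Agent.Q209.GT.Sub
import Pool.Agent.Q285.GT.Qsub
import Pool.Agent.Y221.PD.Imp
import Pool.Agent.Q103.KO.All

/-!
# Hyperbolicity modulo a proper closed subset

`x` is the generic point of a projective variety `X`, in homogeneous coordinates.
-/

set_option autoImplicit false

namespace Pool.Agent.Q103.EC

open FF Polynomial Metric
open Pool.Agent.W602.GT
open Pool.Agent.Q41.SU
open Pool.Agent.Q41.GT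
open Pool.Agent.TH466.QG (SubOf StronglyGeneral)
open Pool.Agent.Y221.BD (EntireCurve PseudoBrody)
open Pool.Agent.Y221.PD (EssentialDisc PseudoPicard MeroMap PseudoAbelian TorusCurve PseudoTorus
  brody_of_picard abelian_of_brody torus_of_brody)
open Pool.Agent.Y216 (OnVar CurveBound pointed_of_bound)
open Pool.Agent.W602.RG (PseudoGeomHyp PointedMaps)
open Pool.Agent.W603.LV (canDeg)
open Pool.Agent.W603.PV (pht)
open Pool.Agent.Q103.KO (IsPoint SameP Chain PseudoKobayashi)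

/-- The projective variety `X` with the generic point `x` is hyperbolic modulo the proper closed subset
`Z` given by the form `R`. -/
structure HypOff {M : ℕ} {L : Type} [Field L] [Algebra ℂ L] (x : Fin (M + 1) → L)
    (R : MvPolynomial (Fin (M + 1)) ℂ) : Prop where
  form : IsForm R
  ne : val x R ≠ 0
  /-- all closed subvarieties of positive dimension which are not contained in `Z` are of general
  type -/
  sub : ∀ (E : Type) [Field E] [Algebra ℂ E] (w : ℕ) (z : Fin (M + 1) → E), SubOf ℂ x z →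
    val z R ≠ 0 → 1 ≤ w → Algebra.trdeg ℂ E = w → GeneralType ℂ E w
  /-- `Z` contains the images of all holomorphic maps from the punctured disc to `X` with an essential
  singularity -/
  disc : ∀ f, EssentialDisc x f → ∀ t ∈ ball (0 : ℂ) 1 \ {0}, MvPolynomial.eval (f t) R = 0
  /-- `Z` contains all entire curves -/
  curve : ∀ f, EntireCurve x f → ∀ t, MvPolynomial.eval (fun i => f i t) R = 0
  /-- `Z` contains all nonconstant meromorphic images of the spaces `ℂ ^ g` -/
  mero : ∀ g h, MeroMap x g h → ∀ t, MvPolynomial.eval (fun i => h i t) R = 0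
  /-- `Z` contains all nonconstant images of the multiplicative group -/
  torus : ∀ f, TorusCurve x f → ∀ t, t ≠ 0 → MvPolynomial.eval (fun i => (f i).eval t) R = 0
  /-- for every pointed curve there are only finitely many morphisms to `X` with a given value outside
  of `Z` at the marked point -/
  pointed : ∀ (E : Type) [Field E] [Algebra ℂ E] [IsFF ℂ E] (c : Place ℂ E),
    ∀ a ∈ VarPts ℂ x, val a R ≠ 0 → (PointedMaps x c a).Finite
  /-- the degree of the morphisms from a curve of genus `g` to `X`, with an image not contained in `Z`,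
  is at most `A * max (2 * g - 2) 0` -/
  degree : ∃ A : ℕ, ∀ (E : Type) [Field E] [Algebra ℂ E] [IsFF ℂ E] (f : Fin (M + 1) → E),
    OnVar ℂ x f → val f R ≠ 0 → pht ℂ f ≤ A * max (canDeg ℂ E) 0
  /-- the Kobayashi pseudodistance of two different points which are not both in `Z` is positive -/
  kobayashi : ∀ a b : Fin (M + 1) → ℂ, IsPoint x a → IsPoint x b → ¬ SameP a b →
    (MvPolynomial.eval a R ≠ 0 ∨ MvPolynomial.eval b R ≠ 0) →
    ∃ ε : ℝ, 0 < ε ∧ ∀ l : ℝ, Chain x a b l → ε ≤ l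

section combine

variable {M : ℕ} {L : Type} [Field L] [Algebra ℂ L] {x : Fin (M + 1) → L}

theorem isForm_mul {R S : MvPolynomial (Fin (M + 1)) ℂ} (hR : IsForm R) (hS : IsForm S) :
    IsForm (R * S) := by
  obtain ⟨a, ha⟩ := hR
  obtain ⟨b, hb⟩ := hS
  exact ⟨a + b, ha.mul hb⟩

theorem val_mul' {E : Type} [Field E] [Algebra ℂ E] (z : Fin (M + 1) → E)
    (R S : MvPolynomial (Fin (M + 1)) ℂ) : val z (R * S) = val z R * val z S := by
  unfold val
  exact map_mul _ _ _

/-- one closed subset for all the conditions -/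
theorem hypOff_of (h1 : StronglyGeneral ℂ x) (h2 : PseudoPicard x) (h3 : CurveBound ℂ x)
    (h4 : PseudoKobayashi x) : ∃ R, HypOff x R := by
  have h5 := brody_of_picard h2
  obtain ⟨R1, f1, n1, g1⟩ := h1
  obtain ⟨R2, f2, n2, g2⟩ := h2
  obtain ⟨R4, f4, n4, g4⟩ := abelian_of_brody h5
  obtain ⟨R5, f5, n5, g5⟩ := torus_of_brody h5
  obtain ⟨R3, f3, n3, g3⟩ := h5
  obtain ⟨R6, f6, n6, g6⟩ := pointed_of_bound h3
  obtain ⟨R7, f7, n7, g7⟩ := h3
  obtain ⟨R8, f8, n8, g8⟩ := h4
  have key : ∀ {E : Type} [Field E] [Algebra ℂ E] (z : Fin (M + 1) → E),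
      val z (R1 * R2 * R3 * R4 * R5 * R6 * R7 * R8) ≠ 0 ↔ val z R1 ≠ 0 ∧ val z R2 ≠ 0 ∧
        val z R3 ≠ 0 ∧ val z R4 ≠ 0 ∧ val z R5 ≠ 0 ∧ val z R6 ≠ 0 ∧ val z R7 ≠ 0 ∧
        val z R8 ≠ 0 := by
    intro E _ _ z
    simp only [val_mul', Ne, mul_eq_zero, not_or]
    tauto
  refine ⟨R1 * R2 * R3 * R4 * R5 * R6 * R7 * R8, ?_, ?_, ?_, ?_, ?_, ?_, ?_, ?_, ?_, ?_⟩
  · exact isForm_mul (isForm_mul (isForm_mul (isForm_mul (isForm_mul (isForm_mul (isForm_mul f1 f2)
      f3) f4) f5) f6) f7) f8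
  · rw [key]
    exact ⟨n1, n2, n3, n4, n5, n6, n7, n8⟩
  · intro E _ _ w z hz hR hw htr
    exact g1 E w z hz ((key z).1 hR).1 hw htr
  · intro f hf t ht
    simp only [map_mul, g2 f hf t ht, mul_zero, zero_mul]
  · intro f hf t
    simp only [map_mul, g3 f hf t, mul_zero, zero_mul]
  · intro g h hh t
    simp only [map_mul, g4 g h hh t, mul_zero, zero_mul]
  · intro f hf t ht
    simp only [map_mul, g5 f hf t ht, mul_zero, zero_mul]
  · intro E _ _ _ c a ha hR
    exact g6 E c a ha ((key a).1 hR).2.2.2.2.2.1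
  · obtain ⟨A, hA⟩ := g7
    exact ⟨A, fun E _ _ _ f hf hR => hA E f hf ((key f).1 hR).2.2.2.2.2.2.1⟩
  · intro a b ha hb hab hR
    refine g8 a b ha hb hab ?_
    simp only [map_mul, Ne, mul_eq_zero, not_or] at hR
    tauto

end combine

/-- **Varieties carrying a map with many preperiodic points**, first form. -/
theorem hyp_crs (d : ℕ) (hd : 2 ≤ d) : ∃ B : ℕ, ∀ (K : Type) [Field K] [Algebra ℂ K] (p q : K[X]),
    p.natDegree ≤ d → q.natDegree = d → IsCoprime p q → ∀ P : Finset K, Stab p q P → B ≤ P.card →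
    Algebra.IsAlgebraic (IntermediateField.adjoin ℂ (crs P)) K →
    (∀ w : ℕ, 1 ≤ w → Algebra.trdeg ℂ K = w → GeneralType ℂ K w) ∧
    ∀ (M : ℕ) (x : Fin (M + 1) → K), x ≠ 0 → coords ℂ x = ⊤ → ∃ R, HypOff x R := by
  obtain ⟨B1, hB1⟩ := a_gt d hd
  obtain ⟨B2, hB2⟩ := b_str d hd
  obtain ⟨B3, hB3⟩ := b_pic d hd
  obtain ⟨B4, hB4⟩ := Pool.Agent.Q209.GT.dcb c_cvh d hd
  obtain ⟨B5, hB5⟩ := Pool.Agent.Q103.KO.kobayashi d hd
  refine ⟨max B1 (max B2 (max B3 (max B4 B5))), ?_⟩
  intro K _ _ p q hp hq hpq P hP hc halg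
  have : CharZero K := charZero_of_injective_algebraMap (algebraMap ℂ K).injective
  have c1 : B1 ≤ P.card := le_trans (le_max_left _ _) hc
  have c1' := le_trans (le_max_right _ _) hc
  have c2 : B2 ≤ P.card := le_trans (le_max_left _ _) c1'
  have c2' := le_trans (le_max_right _ _) c1'
  have c3 : B3 ≤ P.card := le_trans (le_max_left _ _) c2'
  have c3' := le_trans (le_max_right _ _) c2'
  have c4 : B4 ≤ P.card := le_trans (le_max_left _ _) c3'
  have c5 : B5 ≤ P.card := le_trans (le_max_right _ _) c3'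
  refine ⟨fun w hw htr => hB1 ℂ K w hw htr p q hp hq hpq P hP c1 halg, ?_⟩
  intro M x hx hgen
  exact hypOff_of (hB2 ℂ K M x hx hgen p q hp hq hpq P hP c2 halg)
    (hB3 K M x hx hgen p q hp hq hpq P hP c3 halg)
    (hB4 ℂ K p q hp hq hpq P hP c4 halg M x hx hgen)
    (hB5 K M x hx hgen p q hp hq hpq P hP c5 halg)

/-- **Main theorem.** Varieties carrying a map of degree `d` with many preperiodic points and
generically finite moduli map. -/
theorem main (d : ℕ) (hd : 2 ≤ d) : ∃ B : ℕ, ∀ (K : Type) [Field K] [Algebra ℂ K] (p q : K[X]),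
    ManyPrep ℂ d B p q → ∀ w : ℕ, 1 ≤ w → Algebra.trdeg ℂ K = w → GeneralType ℂ K w ∧
      ∀ (M : ℕ) (x : Fin (M + 1) → K), x ≠ 0 → coords ℂ x = ⊤ → ∃ R, HypOff x R := by
  obtain ⟨B, hB⟩ := hyp_crs d hd
  refine ⟨max B (3 * d + 7), fun K _ _ p q h w hw htr => ?_⟩
  have : CharZero K := charZero_of_injective_algebraMap (algebraMap ℂ K).injective
  obtain ⟨p', q', P', hp', hq', hpq', hst, hc, halg⟩ := exists_stab hd (le_max_right _ _) h
  obtain ⟨h1, h2⟩ := hB K p' q' hp' hq' hpq' P' hst (le_trans (le_max_left _ _) hc) halg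
  exact ⟨h1 w hw htr, h2⟩

/-- **Examples**: the components of the moduli spaces `V d n`, of dimension `2 d - 2`. -/
theorem exists_many (d : ℕ) (hd : 2 ≤ d) (n : ℕ) (hn : 3 ≤ n) :
    ∃ (K : Type) (_ : Field K) (_ : Algebra ℂ K) (p q : K[X]), ManyPrep ℂ d n p q ∧
      Algebra.trdeg ℂ K = (2 * d - 2 : ℕ) := by
  have hne := b_nem d n hd hn
  have hI : MvPolynomial.vanishingIdeal ℂ (V d n ℂ) ≠ ⊤ := by
    intro h
    obtain ⟨y, hy⟩ := hne
    have h1 : (1 : MvPolynomial (Sg d) ℂ) ∈ MvPolynomial.vanishingIdeal ℂ (V d n ℂ) := by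
      rw [h]
      exact Submodule.mem_top
    have h2 := (MvPolynomial.mem_vanishingIdeal_iff.1 h1) y hy
    simp at h2
  obtain ⟨P, hP⟩ := Ideal.nonempty_minimalPrimes hI
  have : P.IsPrime := hP.1.1
  obtain ⟨h1, h2⟩ := b_cmp ℂ d n hd (by omega) P hP
  have hF := Pool.Agent.Q176.GT.R3.fun_ ℂ (Sg d) _ P h1
  have hx := b_gnp ℂ _ d n hd (by omega) _ Set.inter_subset_left _ hF
  have : CharZero (FractionRing (MvPolynomial (Sg d) ℂ ⧸ P)) :=
    charZero_of_injective_algebraMap (algebraMap ℂ _).injective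
  exact ⟨FractionRing (MvPolynomial (Sg d) ℂ ⧸ P), inferInstance, inferInstance, num d _, den d _,
    manyPrep_of_mem hd hn hx hF.2, h2⟩

end Pool.Agent.Q103.EC
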