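import Pool.Agent.Q225.GT.Aff
import Pool.Agent.Q68.GT.Nrm

/-!
# Maps over function fields with generically finite moduli map

`K` is an extension of `k` (the function field of a variety `X` over `k`), `p / q` a rational map over
`K` of degree `d`.
-/

set_option autoImplicit false

namespace Pool.Agent.Q103.EC

open Finset Polynomial
open Pool.Agent.Q41.SU
open Pool.Agent.Q41.GT
open Pool.Agent.W277.UH (ratP1 ratP1_some ratP1_some0 ratP1_none ratP1_none0 hc hev)
open Pool.Agent.Q68.GT (cp three cp_conj cp_coprime cp_max mob_inv)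

/-- The moduli map `X ⇢ M_d` of the map `p / q` is generically finite: if `p / q` is conjugate, by the
Moebius map `(a z + b) / (c z + e)` over an algebraic closure of `K`, to a map `p' / q'` whose
coefficients are algebraic over a field `F` between `k` and `K`, then `K` is algebraic over `F`. -/
def MaxVar (k : Type) {K : Type} [Field k] [Field K] [Algebra k K] (d : ℕ) (p q : K[X]) : Prop :=
  ∀ (F : IntermediateField k K) (p' q' : (AlgebraicClosure K)[X]) (a b c e : AlgebraicClosure K),
    a * e - b * c ≠ 0 → IsCoprime p' q' → max p'.natDegree q'.natDegree = d →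
    (∀ i, IsAlgebraic F (p'.coeff i) ∧ IsAlgebraic F (q'.coeff i)) →
    (∀ y, ratP1 (C a * X + C b) (C c * X + C e) 1
        (ratP1 (p.map (algebraMap K (AlgebraicClosure K)))
          (q.map (algebraMap K (AlgebraicClosure K))) d y) =
      ratP1 p' q' d (ratP1 (C a * X + C b) (C c * X + C e) 1 y)) →
    Algebra.IsAlgebraic F K

/-- the set of the preperiodic points of the map `p / q` in `P^1(K)` -/
def prePer {K : Type} [Field K] (d : ℕ) (p q : K[X]) : Set (Option K) :=
  {z | (Set.range fun m : ℕ => (ratP1 p q d)^[m] z).Finite}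

/-- `p / q` is a map of degree `d` over `K`, with generically finite moduli map and at least `B`
preperiodic points in `P^1(K)`. -/
structure ManyPrep (k : Type) {K : Type} [Field k] [Field K] [Algebra k K] (d B : ℕ) (p q : K[X]) :
    Prop where
  coprime : IsCoprime p q
  deg : max p.natDegree q.natDegree = d
  maxVar : MaxVar k d p q
  many : (B : ℕ∞) ≤ (prePer d p q).encard

/-- multiplication of numerator and denominator with a constant -/
lemma ratP1_mulC {K : Type} [Field K] (d : ℕ) (p q : K[X]) {t : K} (ht : t ≠ 0) (y : Option K) :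
    ratP1 (C t * p) (C t * q) d y = ratP1 p q d y := by
  cases y with
  | none =>
    by_cases h : q.coeff d = 0
    · rw [ratP1_none0 _ _ _ h, ratP1_none0 _ _ _ (by rw [coeff_C_mul, h, mul_zero])]
    · rw [ratP1_none _ _ _ h, ratP1_none _ _ _ (by rw [coeff_C_mul]; exact mul_ne_zero ht h),
        coeff_C_mul, coeff_C_mul, mul_div_mul_left _ _ ht]
  | some x =>
    by_cases h : q.eval x = 0
    · rw [ratP1_some0 _ _ _ _ h, ratP1_some0 _ _ _ _ (by rw [eval_mul, h, mul_zero])]
    · rw [ratP1_some _ _ _ _ h, ratP1_some _ _ _ _ (by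
        rw [eval_mul, eval_C]; exact mul_ne_zero ht h), eval_mul, eval_mul, eval_C,
        mul_div_mul_left _ _ ht]

lemma hc_map {K E : Type} [Field K] [Field E] (φ : K →+* E) (d : ℕ) (A p q : K[X]) :
    (hc d A p q).map φ = hc d (A.map φ) (p.map φ) (q.map φ) := by
  unfold hc hev
  rw [Polynomial.map_sum]
  refine Finset.sum_congr rfl fun i _ => ?_
  rw [Polynomial.map_mul, Polynomial.map_mul, Polynomial.map_pow, Polynomial.map_pow, coeff_map,
    coeff_map, coeff_map, map_C]

lemma cp_map {K E : Type} [Field K] [Field E] (φ : K →+* E) (d : ℕ) (p q : K[X])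
    (a b c e x y : K) :
    (cp d p q a b c e x y).map φ = cp d (p.map φ) (q.map φ) (φ a) (φ b) (φ c) (φ e) (φ x) (φ y) := by
  unfold cp
  simp only [Polynomial.map_add, Polynomial.map_mul, hc_map, map_C, map_X, Polynomial.map_neg,
    map_neg]

/-- **Normal form.** A map with generically finite moduli map and many preperiodic points gives, after
a conjugation, a stable set of points of `K` such that `K` is algebraic over the field of its cross
ratios. -/
theorem exists_stab {k K : Type} [Field k] [CharZero k] [Field K] [Algebra k K] {d B : ℕ}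
    (hd : 2 ≤ d) (hB : 3 * d + 7 ≤ B) {p q : K[X]} (h : ManyPrep k d B p q) :
    ∃ (p' q' : K[X]) (P' : Finset K), p'.natDegree ≤ d ∧ q'.natDegree = d ∧ IsCoprime p' q' ∧
      Stab p' q' P' ∧ B ≤ P'.card ∧
      Algebra.IsAlgebraic (IntermediateField.adjoin k (crs P')) K := by
  classical
  obtain ⟨T, hT, hTc⟩ := Set.exists_subset_encard_eq h.many
  have hTfin : T.Finite := Set.finite_of_encard_eq_coe hTc
  set f : Option K → Option K := ratP1 p q d with hf
  let S : Set (Option K) := ⋃ z ∈ T, Set.range fun m : ℕ => f^[m] z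
  have hSfin : S.Finite := hTfin.biUnion fun z hz => hT hz
  have hTS : T ⊆ S := by
    intro z hz
    exact Set.mem_biUnion hz ⟨0, rfl⟩
  have hSf : ∀ z ∈ S, f z ∈ S := by
    intro z hz
    simp only [S, Set.mem_iUnion, Set.mem_range] at hz ⊢
    obtain ⟨y, hy, m, rfl⟩ := hz
    exact ⟨y, hy, m + 1, Function.iterate_succ_apply' f m y⟩
  have hcard : B ≤ hSfin.toFinset.card := by
    have h3 : T.encard ≤ S.encard := Set.encard_le_encard hTS
    rw [hTc, hSfin.encard_eq_coe_toFinset_card] at h3
    exact_mod_cast h3
  obtain ⟨x, hx, y, hy, z, hz, hxy, hxz, hyz⟩ := Finset.two_lt_card.1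
    (show 2 < hSfin.toFinset.card by omega)
  obtain ⟨a, b, c, e, hdet, g0, g1, g2⟩ := three hxy hxz hyz
  have hd1 : 1 ≤ d := by omega
  set p1 := cp d p q a b c e a b with hp1
  set q1 := cp d p q a b c e c e with hq1
  set M : Option K → Option K := ratP1 (C a * X + C b) (C c * X + C e) 1 with hM
  have hMinj : Function.Injective M := Function.LeftInverse.injective (mob_inv hdet)
  have hconj := cp_conj hd1 h.coprime h.deg hdet
  have hco1 : IsCoprime p1 q1 := cp_coprime hd1 h.coprime h.deg hdet
  have hmax1 : max p1.natDegree q1.natDegree = d := cp_max hd1 h.coprime h.deg hdet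
  have hcardM : (hSfin.toFinset.image M).card = hSfin.toFinset.card :=
    Finset.card_image_of_injective _ hMinj
  -- `K` is algebraic over the field generated by the coefficients
  have halg : Algebra.IsAlgebraic (IntermediateField.adjoin k (rats p1 q1)) K := by
    obtain ⟨g, hg, j, hgj⟩ : ∃ g : K[X], (g = p1 ∨ g = q1) ∧ ∃ j, g.coeff j ≠ 0 := by
      rcases max_choice p1.natDegree q1.natDegree with h7 | h7
      · rw [hmax1] at h7
        refine ⟨p1, Or.inl rfl, d, ?_⟩
        rw [h7, coeff_natDegree]
        intro h0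
        rw [leadingCoeff_eq_zero.1 h0, natDegree_zero] at h7
        omega
      · rw [hmax1] at h7
        refine ⟨q1, Or.inr rfl, d, ?_⟩
        rw [h7, coeff_natDegree]
        intro h0
        rw [leadingCoeff_eq_zero.1 h0, natDegree_zero] at h7
        omega
    set φ := algebraMap K (AlgebraicClosure K) with hφ
    set t : K := (g.coeff j)⁻¹ with ht
    have ht0 : t ≠ 0 := inv_ne_zero hgj
    have hφt : φ t ≠ 0 := (map_ne_zero φ).2 ht0
    have hφdet : φ a * φ e - φ b * φ c ≠ 0 := by
      rw [← map_mul, ← map_mul, ← map_sub]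
      exact (map_ne_zero φ).2 hdet
    have hcoφ : IsCoprime (p.map φ) (q.map φ) := h.coprime.map (mapRingHom φ)
    have hmaxφ : max (p.map φ).natDegree (q.map φ).natDegree = d := by
      rw [natDegree_map, natDegree_map, h.deg]
    have hunit : IsUnit (C (φ t)) := by
      rw [Polynomial.isUnit_C]
      exact hφt.isUnit
    refine h.maxVar (IntermediateField.adjoin k (rats p1 q1)) (C (φ t) * p1.map φ)
      (C (φ t) * q1.map φ) (φ a) (φ b) (φ c) (φ e) hφdet ?_ ?_ ?_ ?_
    · rw [isCoprime_mul_unit_left hunit]
      exact hco1.map (mapRingHom φ)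
    · rw [natDegree_C_mul hφt, natDegree_C_mul hφt, natDegree_map, natDegree_map, hmax1]
    · intro i
      have key : ∀ g' : K[X], (g' = p1 ∨ g' = q1) →
          IsAlgebraic (IntermediateField.adjoin k (rats p1 q1)) ((C (φ t) * g'.map φ).coeff i) := by
        intro g' hg'
        have hmem : g'.coeff i / g.coeff j ∈ IntermediateField.adjoin k (rats p1 q1) :=
          IntermediateField.subset_adjoin _ _ ⟨g', g, hg', hg, i, j, rfl⟩
        have e1 : (C (φ t) * g'.map φ).coeff i = algebraMap
            (IntermediateField.adjoin k (rats p1 q1)) (AlgebraicClosure K)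
              ⟨g'.coeff i / g.coeff j, hmem⟩ := by
          rw [coeff_C_mul, coeff_map, ← map_mul,
            IsScalarTower.algebraMap_apply (IntermediateField.adjoin k (rats p1 q1)) K
              (AlgebraicClosure K)]
          congr 1
          show (g.coeff j)⁻¹ * g'.coeff i = g'.coeff i / g.coeff j
          rw [div_eq_mul_inv, mul_comm]
        rw [e1]
        exact isAlgebraic_algebraMap _
      exact ⟨key _ (Or.inl rfl), key _ (Or.inr rfl)⟩
    · intro y
      rw [ratP1_mulC d _ _ hφt, hp1, hq1, cp_map, cp_map]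
      exact cp_conj hd1 hcoφ hmaxφ hφdet y
  obtain ⟨p', q', P', hp', hq', hpq', hst, hc, halg'⟩ := Pool.Agent.Q225.GT.aff k K d hd p1 q1
    hco1 hmax1 (hSfin.toFinset.image M)
    (fun z hz => by
      obtain ⟨w, hw, rfl⟩ := Finset.mem_image.1 hz
      rw [← hconj w]
      refine Finset.mem_image_of_mem _ ?_
      rw [Set.Finite.mem_toFinset] at hw ⊢
      exact hSf w hw)
    (by rw [← g0]; exact Finset.mem_image_of_mem _ hx)
    (by rw [← g1]; exact Finset.mem_image_of_mem _ hy)
    (by rw [← g2]; exact Finset.mem_image_of_mem _ hz)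
    (by rw [hcardM]; omega) halg
  exact ⟨p', q', P', hp', hq', hpq', hst, by rw [hc, hcardM]; exact hcard, halg'⟩

end Pool.Agent.Q103.EC
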