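import Pool.Agent.Q103.EC.Defs

/-!
# Statements, part 1: local estimates for arbitrary values
-/

namespace Pool.Agent.Q103.EC

open Finset Polynomial FF
open Pool.Agent.W602.GT
open Pool.Agent.W603.LV (Ge)
open Pool.Agent.Q41.SU
open Pool.Agent.Q41.GT

universe u

/-- (A1) **Lipschitz values.** If the logarithmic derivatives of the cross ratios are regular then,
after subtraction of a polynomial of degree two, the values and their slopes are regular.
Proof. Choose `i ≠ j` with `v.ord (w i - w j)` minimal, and a third index `k₀`. Put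
`u l = (w l - w i) / (w j - w i)` (regular, `u i = 0`, `u j = 1`) and `Y l = y l / (w j - w i)`: the
slopes of `(u, Y)` are those of `(w, y)`. Subtract from `Y` a polynomial `α' + β' u + γ' u ^ 2` (Lagrange
interpolation at the different points `u i`, `u j`, `u k₀`) such that `Y i = Y j = Y k₀ = 0`. This
changes the slope `s l m` by `β' + γ' (u l + u m)`, so it does not change `lgd`. Now `s i j = 0`,
`s i k₀ = s j k₀ = 0`. For `l` different from `i`, `j`, `k₀` the relations `lgd i j l k₀`,
`lgd j i l k₀` give that `s l k₀ - s l j` and `s l k₀ - s l i` are regular, so `δ = s l i - s l j` is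
regular. `Y l = s l i * u l = s l j * (u l - 1)`, so `s l i = δ (1 - u l)`, `s l j = - δ u l` and `Y l` are
regular (this is trivial for `l = k₀`). For `l ≠ m` different from `i`, `j` the relation
`lgd i j l m` (that is `s i j + s l m - s i m - s l j`) shows that `s l m` is regular. Go back:
`y l = (w j - w i) Y l`. -/
def S_lip : Prop :=
  ∀ (k K : Type) [Field k] [Field K] [Algebra k K] (v : Place k K) (J : Type) [Fintype J]
    (w y : J → K), Function.Injective w → (∀ l, v.Reg (w l)) → Lgx v w y → 3 ≤ Fintype.card J →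
    ∃ α β γ : K, (∀ l, v.Reg (y l - (α + β * w l + γ * w l ^ 2))) ∧
      ∀ l m, l ≠ m → v.Reg (slp w (fun l => y l - (α + β * w l + γ * w l ^ 2)) l m)

/-- (A2) **The local estimate for Lipschitz values.** Proof. `o l m = v.ord (w l - w m)`. Digits
`w l = ∑_{i<M} c i l * π ^ i + π ^ M * η l` by (G2) `S_dgt`. For `i ≤ M` let `ρ i l` be a chosen element of
the class of level `i` of `l` (the rows with the same first `i` digits `c`), the same for all elements
of the class; for `i = 0` it does not depend on `l`. Then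
`y l = y (ρ 1 l) + ∑_{1 ≤ i < M} (y (ρ (i+1) l) - y (ρ i l)) + (y l - y (ρ M l))` (if `M = 0` there is
nothing to prove), where `y (ρ (i+1) l) - y (ρ i l)` is `π ^ i` times a regular element `e i l`, because
the two rows are in the same class of level `i`, so they are equal or `i ≤ v.ord (difference)`, and the
slopes are regular; put `e 0 l = y (ρ 1 l)`; similarly `y l - y (ρ M l) = π ^ M * η' l`. The digit `e i l`
depends only on the first `i + 1` digits `c`. In the ring `A = v.O[X]` put
`x l = w l + X y l = ∑ (c i l + X e i l) π ^ i + π ^ M (η l + X η' l)` and apply (G1) `S_bgc` with the first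
coordinates `x`, the digits `c i l + X e i l`, the second coordinates `w` with the digits `c i l`
(equality of the first digits implies equality of the second ones: constant coefficients) and
`ϖ = ϖ' = π`. The classes of both systems of digits are the same, `dcl … i l = cnt o i l` for `i ≤ M`.
With `w₁ = w₂ = 1`: `bd a b x w` is divisible by `π ^ V` in `A`, `V` the least natural number which is at
least `LS (phi 1 1)`. By `Wrf` (in the power series over `K`; `A` maps to it), `κ` times the coefficient
of `X ^ cst φ` of `bd a b x w` is `wro φ w y`; so this has order at least `V` (`κ` has order `0`).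
(`S_bgc`, `S_dgt` may be assumed; proofs `Pool.Agent.Q95.GT.t_bgc`, `Pool.Agent.Q166.GT` file `Dgt`.) -/
def S_lgc : Prop :=
  ∀ (k K : Type) [Field k] [CharZero k] [Field K] [Algebra k K] (v : Place k K)
    (a b M : ℕ) (φ : II a b → ℕ × ℕ) (κ : ℤ), κ ≠ 0 → Wrf φ κ → ∀ w y : II a b → K,
    Function.Injective w → (∀ l, v.Reg (w l)) → (∀ l, v.Reg (y l)) →
    (∀ l m, l ≠ m → v.Reg (slp w y l m)) → (∀ l m, l ≠ m → v.ord (w l - w m) ≤ M) →
    wro φ w y ≠ 0 →
    LS (fun n => (phi 1 1 a b n : ℝ)) M (fun l m => v.ord (w l - w m)) ≤ v.ord (wro φ w y)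

/-- (A3) **Covariance for arbitrary values.** Proof. In the field of fractions of `PowerSeries K` let
`x' l = x l + X y l` and let `m'` be the Moebius map with the matrix
`[[1 + X β, X α], [- X γ, 1]] * [[m.α, m.β], [m.γ, m.δ]]`, of determinant `(1 + X β + X ^ 2 α γ) m.det`.
Then `m'.app (x' l)` is a power series with constant coefficient `m.app (x l)` and coefficient of `X`
equal to `m.det * y l / m.den (x l) ^ 2 + (α + β * m.app (x l) + γ * m.app (x l) ^ 2)`. Apply the two
identities of `S_cov` (`Q41/SU/Stm2.lean`), with `m'` at `x'` for the first coordinates and `m` at `x` for the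
second coordinates, as in the proof of `S_cvl` (file `Q182/GT/Cvl.lean`), and compare the coefficients of
`X ^ cst φ` by `Wrf` on both sides (`κ ≠ 0` in `K`). -/
def S_cvy : Prop :=
  ∀ (K : Type) [Field K] [CharZero K] (a b : ℕ) (φ : II a b → ℕ × ℕ) (κ : ℤ), κ ≠ 0 → Wrf φ κ →
    ∀ (m : Mb K) (x y : II a b → K) (α β γ : K), m.det ≠ 0 → (∀ l, m.den (x l) ≠ 0) →
    wro φ (fun l => m.app (x l)) (fun l => m.det * y l / m.den (x l) ^ 2 +
        (α + β * m.app (x l) + γ * m.app (x l) ^ 2)) * ∏ l, m.den (x l) ^ (a + b) =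
      m.det ^ ((b + 1) * (a * (a + 1) / 2) + (a + 1) * (b * (b + 1) / 2)) * wro φ x y

/-- (A4) **Invariance of the logarithmic derivatives of the cross ratios.** Proof. The new slope is
`slp x y i j - m.γ * y i / m.den (x i) - m.γ * y j / m.den (x j) + β + γ (m.app (x i) + m.app (x j))`
(use `m.app (x i) - m.app (x j) = m.det (x i - x j) / (m.den (x i) * m.den (x j))` and
`m.den (x j) = m.den (x i) - m.γ (x i - x j)`); the additional terms cancel in `lgd`. -/
def S_inv : Prop :=
  ∀ (K : Type) [Field K] (J : Type) (m : Mb K) (x y : J → K) (α β γ : K), m.det ≠ 0 →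
    Function.Injective x → (∀ l, m.den (x l) ≠ 0) → ∀ i j l n, i ≠ j → l ≠ n → i ≠ n → l ≠ j →
    lgd (fun l => m.app (x l)) (fun l => m.det * y l / m.den (x l) ^ 2 +
        (α + β * m.app (x l) + γ * m.app (x l) ^ 2)) i j l n = lgd x y i j l n

/-- (A5) **Concavity of `phi` in the weights.** Proof. For `n ≤ (a + 1) (b + 1)` let `T` be a set with
`n` elements which attains the minimum for the weights `(1, 1)`. Its sum of `s + r` is the sum of those
for the weights `(1, 0)` and `(0, 1)`, and `J` times it is `J - 1` times the one for `(1, 0)` plus the one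
for `(1, J)`. If `n > (a + 1) (b + 1)` all values are `sInf ∅ = 0`. -/
def S_cnc : Prop :=
  ∀ a b J n : ℕ, 1 ≤ J → phi 1 0 a b n + phi 0 1 a b n ≤ phi 1 1 a b n ∧
    phi 1 J a b n + (J - 1) * phi 1 0 a b n ≤ J * phi 1 1 a b n

/-- (A6) **The local estimate for arbitrary values**, in original coordinates; it is `S_wrx`
(`Q41/GT/Stm1.lean`, proof in `Q223/GT/Wrx.lean`) with the hypothesis `Lgx` instead of a regular derivation,
and without the term `cst φ`. Proof. Let `w l = m.app (x l)`, `y' l = m.det * y l / m.den (x l) ^ 2`. By (A4)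
`Lgx v w y'`, by (A1) there are `α`, `β`, `γ` such that `z l = y' l - (α + β w l + γ w l ^ 2)` has regular
values and slopes, by (A2) `LS (phi 1 1) ≤ v.ord (wro φ w z)`, and (A3) (with `-α`, `-β`, `-γ`) gives
`v.ord (wro φ w z) + (a + b) ∑ v.ord (den x_l) = (N (a + b) / 2) v.ord (det m) + v.ord (wro φ x y)`,
`N = (a + 1) (b + 1)`. Conclude as in the proof of `S_wrx`, with (A5):
`phi 1 1 ≥ phi 1 0 + phi 0 1` and `phi 1 1 ≥ phi 1 0 + (phi 1 J - phi 1 0) / J
= phi 1 0 + phi 0 1 + gam / J`. (`S_lip`, `S_lgc`, `S_cvy`, `S_inv`, `S_cnc`, `S_lsq` may be assumed.) -/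
def S_wry : Prop :=
  ∀ (k K : Type) [Field k] [CharZero k] [Field K] [Algebra k K] (v : Place k K)
    (a b J M : ℕ) (φ : II a b → ℕ × ℕ) (κ : ℤ), κ ≠ 0 → 1 ≤ a → 1 ≤ b → 1 ≤ J → Wrf φ κ →
    ∀ (x y : II a b → K) (m : Mb K), Function.Injective x → m.det ≠ 0 →
    (∀ l, m.den (x l) ≠ 0 ∧ v.Reg (m.app (x l))) →
    (∀ l j, l ≠ j → v.ord (m.app (x l) - m.app (x j)) ≤ M) → Lgx v x y →
    wro φ x y ≠ 0 →
    ((a : ℝ) + b) / (2 * (((a : ℝ) + 1) * (b + 1) - 1)) *
          (∑ l, ∑ j ∈ univ.erase l, (v.ord (x l - x j) : ℝ)) -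
        LS (kap a b) M (fun l j => v.ord (m.app (x l) - m.app (x j))) ≤ v.ord (wro φ x y) ∧
    ((a : ℝ) + b) / (2 * (((a : ℝ) + 1) * (b + 1) - 1)) *
          (∑ l, ∑ j ∈ univ.erase l, (v.ord (x l - x j) : ℝ)) -
        LS (kap a b) M (fun l j => v.ord (m.app (x l) - m.app (x j))) +
        LS (gam a b J) M (fun l j => v.ord (m.app (x l) - m.app (x j))) / J ≤
      v.ord (wro φ x y)

/-- (A7) **Integrality at a place**, for derivations which are regular at the place and for values
`y` such that the logarithmic derivatives of the cross ratios are regular. Proof. As `S_ords`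
(`Q41/GT/Stm2.lean`, proof `Pool.Agent.Q223.GT.t_ords`): constants `N₁`, `c'`, `η` from (G9) `S_locv`, `J`, `b`,
`n` from (G10) `S_nmc`, `a = J b`, `N = (a + 1) (b + 1)`, `φ`, `κ` from (G6) `S_wrf`,
`e = E₀ d (d - 1)`. `α` is given, `R v` is the number of (G9) for the place `v` and
`a z = v.ord (α z) / E₀`. (1) `Ge v (R v) (PhiY … x y)`: for a regular derivation by `S_wrx` as in the proof
of `S_ords` (`PhiY … x D = Phi … x D` if `y = D` on `P`), for values `y` with `lgs P y` regular by (A6)
`S_wry` in the same way, with `c = 0` in `S_nmc` (`Lgx v x (y ∘ x)` follows from the hypothesis on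
`lgs P y` because the rows are different points of `P`). (2) The orders of `𝒢 = GG …` and of its products
with the cross ratios are at least `-C' R v`, as in the proof of `S_ords`, `C'` depends on `m = |P|` and
`E₀` only (take `C' ≥ 1`). So the product is regular. (`S_locv`, `S_nmc`, `S_wrf`, `S_wrx`, `S_wry`, `S_gfn`
may be assumed.) -/
def S_ordL : Prop :=
  ∀ d : ℕ, 2 ≤ d → ∃ (a b : ℕ) (φ : II a b → ℕ × ℕ), 1 ≤ b ∧ b ≤ a ∧ 2 ≤ a ∧ Cols a b φ ∧
    1 ≤ cst φ ∧ ∀ n E₀ : ℕ, 1 ≤ E₀ → ∃ C' : ℕ, 1 ≤ C' ∧
    ∀ (k K : Type) [Field k] [CharZero k] [Field K] [Algebra k K] (p q : K[X]),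
    p.natDegree ≤ d → q.natDegree = d → IsCoprime p q → ∀ P : Finset K, Stab p q P → P.card = n →
    ∀ α : K → K, (∀ z, α z ≠ 0) →
    (∀ z ∈ P, α z ^ d = q.eval z ^ E₀ * α (p.eval z / q.eval z)) →
    ∀ (v : Place k K) (y : K → K),
    ((∃ D : Derivation k K K, DerReg v D ∧ ∀ z ∈ P, y z = D z) ∨ ∀ s ∈ lgs P y, v.Reg s) →
    ∀ x : II a b → K, Function.Injective x → (∀ l, x l ∈ P) → ∀ h ∈ hfs E₀ d α p q P,
    v.Reg (PhiY φ E₀ d α p q x y ^ C' * h)

end Pool.Agent.Q103.EC
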