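import Pool.Agent.Q103.EC.Stm1
import Pool.Agent.Q41.SU.Stm5
import Pool.Agent.Q41.SU.Stm6
import Pool.Agent.Y221.AP.Inf

/-!
# Statements, part 2: integrality and meromorphic functions

`MK` is the field of the meromorphic functions on the exterior `Om` of the unit disc, `MDer` the
derivation `d / dz`, `Reg x z` (`Pool.Agent.Y221.AP.Reg`): `x` is holomorphic at `z`, `MInf x`: `x` is
meromorphic at infinity.
-/

namespace Pool.Agent.Q103.EC

open Finset Polynomial FF
open Pool.Agent.W602.GT
open Pool.Agent.Q41.SU
open Pool.Agent.Q41.GT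
open Pool.Agent.Y221.AP (MK MDer Om MInf)

/-- (B1) **The valuative criterion of integrality with discrete valuations.** `L` is finitely generated
over `k`. Proof. Let `A ≠ 0` be not integral over `R₀ = k[B]`. Then `A` is not in `R = k[B, 1 / A]` (a
relation `A = f(1 / A)`, `f` of degree `n` over `R₀`, multiplied by `A ^ n` shows that `A` is integral). Let
`t` be a transcendence basis of `L` over the fraction field of `R` in `L` and `R₁ = R[t]`, a polynomial
ring over `R`; `1 / A` is not a unit of `R₁`. By Noether normalization `R₁` is integral over a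
polynomial ring `S = k[z]` (`z` algebraically independent); `L` is finite over `Frac S` (algebraic and
finitely generated). Let `R₂` be the integral closure of `S` in `L`: a noetherian integrally closed domain
(`S` is integrally closed, characteristic zero) with fraction field `L`, which contains `R₁`. `1 / A` is
not a unit of `R₂` (otherwise `A` is integral over `R₁`, `A ^ n = - ∑_{i<n} r_i A ^ i`, and
`A = - ∑ r_i (1 / A) ^ (n - 1 - i)` is in `R₁`). Let `𝔮` be a minimal prime over `(1 / A)` in `R₂`, of height
one (Krull's principal ideal theorem, `Ideal.height_le_one_of_isPrincipal_of_mem_minimalPrimes`); the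
local ring at `𝔮` is a discrete valuation ring with fraction field `L`, so it defines a place `v` of `L`,
trivial on `k`, at which all `b ∈ B` are regular and `1 / A` is not a unit, so `A` is not regular.
(There may be parts of this in the library: search for constructions of `FF.Place`.) -/
def S_val : Prop :=
  ∀ (k L : Type) [Field k] [CharZero k] [Field L] [Algebra k L] (S : Finset L),
    IntermediateField.adjoin k (S : Set L) = ⊤ → ∀ (B : Finset L) (A : L),
    (∀ v : Place k L, (∀ b ∈ B, v.Reg b) → v.Reg A) →
    IsIntegral (Algebra.adjoin k (B : Set L)) A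

/-- (B2) **Integrality over the logarithmic derivatives.** Proof. Same `a`, `b`, `φ`, `C'` as in (A7)
`S_ordL`; the second conclusion is (A7). First conclusion: let `T` be the set of the coefficients of
`p`, `q`, the elements of `P`, and the `α z`, `y z`, `z` in `P`, `L = IntermediateField.adjoin k T`. Everything
is defined over `L`: `p₀`, `q₀`, `P₀`, and `α₀`, `y₀ : L → L` (put `α₀ = 1`, `y₀ = 0` outside of `P₀`), the
rows `x` lift to `x₀`, and `h` is the image of `h₀ ∈ hfs …` (cross ratios, resultants, products and
determinants commute with field homomorphisms). `lgs P₀ y₀` is finite; at a place `v` of `L` where its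
elements are regular `PhiY …₀ ^ C' * h₀` is regular by (A7). By (B1) it is integral over
`Algebra.adjoin k (lgs P₀ y₀)`; apply the inclusion of `L` in `K`. (`S_ordL`, `S_val` may be assumed.) -/
def S_intg : Prop :=
  ∀ d : ℕ, 2 ≤ d → ∃ (a b : ℕ) (φ : II a b → ℕ × ℕ), 1 ≤ b ∧ b ≤ a ∧ 2 ≤ a ∧ Cols a b φ ∧
    1 ≤ cst φ ∧ ∀ n E₀ : ℕ, 1 ≤ E₀ → ∃ C' : ℕ, 1 ≤ C' ∧
    ∀ (k K : Type) [Field k] [CharZero k] [Field K] [Algebra k K] (p q : K[X]),
    p.natDegree ≤ d → q.natDegree = d → IsCoprime p q → ∀ P : Finset K, Stab p q P → P.card = n →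
    ∀ α : K → K, (∀ z, α z ≠ 0) →
    (∀ z ∈ P, α z ^ d = q.eval z ^ E₀ * α (p.eval z / q.eval z)) →
    ∀ y : K → K, ∀ x : II a b → K, Function.Injective x → (∀ l, x l ∈ P) →
    ∀ h ∈ hfs E₀ d α p q P,
    IsIntegral (Algebra.adjoin k (lgs P y)) (PhiY φ E₀ d α p q x y ^ C' * h) ∧
    ∀ (v : Place k K) (D : Derivation k K K), DerReg v D → (∀ z ∈ P, y z = D z) →
      v.Reg (PhiY φ E₀ d α p q x y ^ C' * h)

/-- (B3) **Functions with small logarithmic derivatives.** Proof. Normalize the family: `exists_nrm`
(`Pool.Agent.Y221.AP.Wei`) gives `e`, `U` with `Nrm u e U`. On a calm disc `CalmO U z ε B` (`Y221/AP/Good.lean`)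
the functions `u j = U j / U 0` have no zeros or poles and `‖u j (w)‖ ≤ B ‖u j z‖`, so by Cauchy's
estimate `‖(D u_j / u_j) (z)‖ ≤ B / ε`. By induction (`Algebra.adjoin_induction`) each element `s` of
`Algebra.adjoin ℂ (range (D u_j / u_j))` has constants `A`, `C` with `Reg s z`, `‖s(z)‖ ≤ C (B / ε) ^ A` on
all calm discs, and the same is true for the elements which are integral over it and holomorphic
(`root_bd`, `Y221/AP/Inf.lean`), in particular for the `F * u i`. Let `P = Fn (F / e)`. It is holomorphic on
`Ext 2`: at `z` choose `i` with `U i z ≠ 0`, `F / e = (F * u i) / (e * u i)`. It is not identically zero and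
`‖P z‖ * sup U z = max_i ‖(F * u i) (z)‖ ≤ C (B / ε) ^ A` on calm discs. Apply
`Pool.Agent.TH152.HY.abstract_ext` with `c = 0`, `κ = 1` (compare the end of the proof of
`Pool.Agent.Y221.AP.engine`, file `Y221/AP/Eng2.lean`), then `minf_of_quot` (`Y221/AP/Main.lean`). -/
def S_ana : Prop :=
  ∀ (N : ℕ) (u : Fin (N + 1) → MK), u 0 = 1 → (∀ i, u i ≠ 0) → ∀ F : MK, F ≠ 0 →
    (∀ i, ∀ z ∈ Om, Pool.Agent.Y221.AP.Reg (F * u i) z) →
    (∀ i, IsIntegral (Algebra.adjoin ℂ (Set.range fun j => MDer (u j) / u j)) (F * u i)) →
    ∀ i, MInf (u i)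

/-- (B4) **The place of a point.** Proof. `v.ord x` is the order of `Fn x` at `z` (`odr`, an integer for
`x ≠ 0`), `0` for `x = 0`; the function `w - z` has order one; `Reg.MD` gives the last clause. -/
def S_plc : Prop :=
  ∀ z ∈ Om, ∃ v : Place ℂ MK, (∀ x, v.Reg x ↔ Pool.Agent.Y221.AP.Reg x z) ∧ DerReg v MDer

/-- (B5) **Cross ratios of preperiodic points are algebraic over the cross ratios of a large stable
subset.** Proof: it is `hA` in the proof of `Pool.Agent.Q149.GT.t_crs` (file `Q149/GT/H5.lean`).
(`S_crc` may be assumed.) -/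
def S_crp : Prop :=
  ∀ (k K : Type) [Field k] [CharZero k] [Field K] [Algebra k K] (d : ℕ) (p q : K[X]), 2 ≤ d →
    p.natDegree ≤ d → q.natDegree = d → IsCoprime p q → ∀ P P' : Finset K, P' ⊆ P → Stab p q P →
    Stab p q P' → 3 * d + 4 ≤ P'.card → ∀ c ∈ crs P,
    IsAlgebraic (IntermediateField.adjoin k (crs P')) c

/-- (B6) **Maps over the field of meromorphic functions with many preperiodic points.** Proof. If
`ConjConst ℂ p q d` then the cross ratios are constants by `S_crc`. Otherwise let `a`, `b`, `φ` be as in
(B2), `N₀` as in `S_ndr` for them, and choose by `S_red` a stable subset `P'` with `Sur p q P'` and at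
least `max N₀ (3 d + 4)` elements. `NDH ℂ MDer d p q P'` holds (`MD_zero`: the constants of `MDer` are the
complex numbers), so by `S_ndr` there are rows `x` in `P'` with `wro φ x (D x) ≠ 0`. Let `n = |P'|`, `E₀`, `α`
from `S_alp`, `C'` from (B2), `F = PhiY φ E₀ d α p q x MDer ^ C' * GG E₀ d α p q P'`, which is not zero
(`S_gfn` with any place, or directly: `resultant ≠ 0`), and let `u` be the list of `1` and the elements of
`crs P'` (finite, not zero). By (B2) with `y = MDer` and (B4) all `F * u i` are holomorphic on `Om` and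
integral over `Algebra.adjoin ℂ (lgs P' MDer)`, and the elements of `lgs P' MDer` are `0` or the
`MDer c / c`, `c` in `crs P'`. By (B3) the elements of `crs P'` are meromorphic at infinity, and the
elements of `crs P` are algebraic over `adjoin ℂ (crs P')` by (B5), so they are in the field `MI` too
(`minf_of_alg`). (`S_intg`, `S_ana`, `S_plc`, `S_crp`, `S_ndr`, `S_red`, `S_crc`, `S_alp`, `S_gfn` may be
assumed.) -/
def S_mer : Prop :=
  ∀ d : ℕ, 2 ≤ d → ∃ B : ℕ, ∀ p q : MK[X], p.natDegree ≤ d → q.natDegree = d → IsCoprime p q →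
    ∀ P : Finset MK, Stab p q P → B ≤ P.card → ∀ c ∈ crs P, MInf c

end Pool.Agent.Q103.EC
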